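import Pool.Agent.TH957.WM.Prime

/-!
# Selection of a prime in a residue class whose `m`-th power does not divide a given number

All primes of the class between the selected prime and the end of the range divide the number to the
order `m`; this makes the reduced number small.
-/

open Filter Topology ArithmeticFunction Pool.Agent.TH957.WM

namespace Pool.Agent.Q203.ZM

noncomputable section

set_option autoImplicit false

/-- the Chebyshev function of a residue class -/
def thc (κ : ℕ) (a : ZMod κ) (y : ℕ) : ℝ := ∑ p ∈ clsP κ a y, Real.log p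

theorem thc_tendsto (κ : ℕ) (hκ : 1 ≤ κ) (a : ZMod κ) (ha : IsUnit a) :
    Tendsto (fun y : ℕ => thc κ a y / y) atTop (𝓝 ((κ.totient : ℝ)⁻¹)) := by
  classical
  have : NeZero κ := ⟨by omega⟩
  have hc1 : Tendsto (fun X : ℕ => (X : ℝ)) atTop atTop := tendsto_natCast_atTop_atTop
  have g2 := (Pool.Agent.Helper923.PNT.pnt_residueClass (q := κ) (a := a) ha).comp hc1
  have g3 := (Pool.Agent.Helper923.PNT.psi_div_tendsto.sub Pool.Agent.Helper923.PNT.theta_div_tendsto).comp hc1
  have g4 := g2.sub g3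
  rw [sub_self, sub_zero] at g4
  refine tendsto_of_tendsto_of_tendsto_of_le_of_le' g4 g2 ?_ ?_
  · filter_upwards [eventually_ge_atTop 1] with y hy
    have hy0 : (0 : ℝ) < y := by exact_mod_cast hy
    have h := cls_lower κ a y
    simp only [Function.comp, Nat.floor_natCast]
    have e : (∑ k ∈ Finset.Icc 1 y, vonMangoldt.residueClass a k) / (y : ℝ) -
        (Chebyshev.psi (y : ℝ) / y - Chebyshev.theta (y : ℝ) / y) =
        ((∑ k ∈ Finset.Icc 1 y, vonMangoldt.residueClass a k) - (Chebyshev.psi (y : ℝ) - Chebyshev.theta (y : ℝ))) / y := by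
      ring
    rw [e]
    apply div_le_div_of_nonneg_right _ hy0.le
    unfold thc
    linarith
  · filter_upwards [eventually_ge_atTop 1] with y hy
    have hy0 : (0 : ℝ) < y := by exact_mod_cast hy
    simp only [Function.comp, Nat.floor_natCast]
    apply div_le_div_of_nonneg_right _ hy0.le
    unfold thc
    calc _ ≤ ∑ p ∈ clsP κ a y, vonMangoldt.residueClass a p := by
          apply Finset.sum_le_sum
          intro p hp
          rw [mem_clsP] at hp
          unfold vonMangoldt.residueClass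
          rw [Set.indicator_of_mem]
          · exact (vonMangoldt_apply_prime hp.2.1).ge
          · exact hp.2.2
      _ ≤ _ := by
          apply Finset.sum_le_sum_of_subset_of_nonneg
          · intro p hp
            rw [mem_clsP] at hp
            rw [Finset.mem_Icc]
            exact hp.1
          · intro p _ _
            exact vonMangoldt.residueClass_nonneg _ _

lemma prod_pow_dvd (m Q : ℕ) (s : Finset ℕ) (hs : ∀ p ∈ s, p.Prime) (hd : ∀ p ∈ s, p ^ m ∣ Q) :
    ∏ p ∈ s, p ^ m ∣ Q := by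
  classical
  induction s using Finset.induction_on with
  | empty => simp
  | insert a s ha ih =>
    rw [Finset.prod_insert ha]
    apply Nat.Coprime.mul_dvd_of_dvd_of_dvd _ (hd a (Finset.mem_insert_self _ _))
      (ih (fun p hp => hs p (Finset.mem_insert_of_mem hp)) fun p hp => hd p (Finset.mem_insert_of_mem hp))
    apply Nat.Coprime.prod_right
    intro p hp
    apply Nat.Coprime.pow
    rw [Nat.coprime_primes (hs a (Finset.mem_insert_self _ _)) (hs p (Finset.mem_insert_of_mem hp))]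
    rintro rfl
    exact ha hp

lemma log_prod_pow (m : ℕ) (s : Finset ℕ) (hs : ∀ p ∈ s, p.Prime) :
    Real.log ((∏ p ∈ s, p ^ m : ℕ) : ℝ) = m * ∑ p ∈ s, Real.log p := by
  rw [Nat.cast_prod, Real.log_prod (fun p hp => by have := (hs p hp).pos; positivity), Finset.mul_sum]
  apply Finset.sum_congr rfl
  intro p _
  rw [Nat.cast_pow, Real.log_pow]

lemma thc_diff (κ : ℕ) (a : ZMod κ) (x y : ℕ) (hxy : x ≤ y) :
    thc κ a y = thc κ a x + ∑ p ∈ (clsP κ a y).filter (fun p => x < p), Real.log p := by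
  unfold thc
  rw [← Finset.sum_filter_add_sum_filter_not (clsP κ a y) (fun p => x < p), add_comm]
  congr 1
  apply Finset.sum_congr _ fun _ _ => rfl
  ext p
  rw [Finset.mem_filter, mem_clsP, mem_clsP]
  constructor
  · rintro ⟨⟨⟨h1, h2⟩, h3⟩, h4⟩
    exact ⟨⟨h1, by omega⟩, h3⟩
  · rintro ⟨⟨h1, h2⟩, h3⟩
    exact ⟨⟨⟨h1, by omega⟩, h3⟩, by omega⟩

theorem select (κ : ℕ) (hκ : 1 ≤ κ) (a : ZMod κ) (ha : IsUnit a) (m : ℕ) (α β c r ε : ℝ)
    (hα : 0 < α) (hc : 0 < c) (hr : 1 < r) (hε : 0 < ε)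
    (h0 : β ≤ α * m / κ.totient) (h1 : α < (β - 2 * ε * α * m) * c)
    (h2 : 1 < m * ((1 - 1 / r) / κ.totient - 2 * ε) * c) (n0 : ℕ) :
    ∀ᶠ q : ℕ in atTop, ∃ (n q' : ℕ) (B : Finset ℕ), n.Prime ∧ (n : ZMod κ) = a ∧ n0 ≤ n ∧
      (n : ℝ) ≤ c * Real.log q ∧ ¬ n ^ m ∣ q ∧ (∀ p ∈ B, p.Prime ∧ n < p ∧ (p : ℝ) < r * n) ∧
      q = q' * ∏ p ∈ B, p ^ m ∧ α * Real.log q' ≤ β * n := by
  classical
  set φ : ℝ := (κ.totient : ℝ) with hφd
  have hφ : 0 < φ := by rw [hφd]; exact_mod_cast Nat.totient_pos.2 hκ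
  have hr0 : 0 < r := by linarith
  have hT := thc_tendsto κ hκ a ha
  rw [Metric.tendsto_atTop] at hT
  obtain ⟨y0, hy0⟩ := hT ε hε
  have hTl : ∀ y : ℕ, y0 ≤ y → 1 ≤ y → (1 / φ - ε) * y ≤ thc κ a y ∧ thc κ a y ≤ (1 / φ + ε) * y := by
    intro y hy hy1
    have h := hy0 y hy
    rw [Real.dist_eq, abs_lt] at h
    have hy0 : (0 : ℝ) < y := by exact_mod_cast hy1
    rw [inv_eq_one_div] at h
    constructor
    · have h3 : (1 / φ - ε) < thc κ a y / y := by linarith [h.1]
      rw [lt_div_iff₀ hy0] at h3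
      exact h3.le
    · have h3 : thc κ a y / y < 1 / φ + ε := by linarith [h.2]
      rw [div_lt_iff₀ hy0] at h3
      exact h3.le
  -- the eventual inequalities for `L = log q`
  have tL : Tendsto (fun q : ℕ => Real.log (q : ℝ)) atTop atTop :=
    Real.tendsto_log_atTop.comp tendsto_natCast_atTop_atTop
  have s1 : 0 < (β - 2 * ε * α * m) * c - α := by linarith
  have s2 : 0 < m * ((1 - 1 / r) / φ - 2 * ε) * c - 1 := by linarith
  have ev1 := (tL.const_mul_atTop s1).eventually_ge_atTop (β - 2 * ε * α * m)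
  have ev2 := (tL.const_mul_atTop s2).eventually_gt_atTop (m * ((1 - 1 / r) / φ - 2 * ε))
  have ev3 := (tL.const_mul_atTop hc).eventually_ge_atTop (r * ((y0 : ℝ) + n0 + 2) + 2)
  filter_upwards [ev1, ev2, ev3, eventually_ge_atTop 1] with q g1 g2 g3 hq
  have hq0 : 0 < q := hq
  set L := Real.log (q : ℝ) with hL
  set Y : ℕ := ⌊c * L⌋₊ with hY
  have hrn : 0 ≤ r * ((y0 : ℝ) + n0 + 2) := by positivity
  have hcL : 0 ≤ c * L := by linarith
  have hY1 : (Y : ℝ) ≤ c * L := Nat.floor_le hcL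
  have hY2 : c * L - 1 < Y := by
    have := Nat.lt_floor_add_one (c * L)
    linarith
  have hYr : (y0 : ℝ) + n0 + 2 ≤ (Y : ℝ) / r := by
    rw [le_div_iff₀ hr0]
    linarith
  have hYb : (Y : ℝ) / r ≤ Y := div_le_self (by positivity) hr.le
  have hYy0 : y0 ≤ Y := by
    have : (y0 : ℝ) ≤ Y := by
      have : (0 : ℝ) ≤ n0 := by positivity
      linarith
    exact_mod_cast this
  have hY1' : 1 ≤ Y := by
    have : (1 : ℝ) ≤ Y := by
      have h3 : (0 : ℝ) ≤ n0 := by positivity
      have h4 : (0 : ℝ) ≤ y0 := by positivity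
      linarith
    exact_mod_cast this
  have hTY := hTl Y hYy0 hY1'
  -- the good primes
  set G := (clsP κ a Y).filter (fun p => ¬ p ^ m ∣ q) with hG
  have hex : ∃ p ∈ G, (Y : ℝ) < r * p := by
    by_contra hcon
    push Not at hcon
    set y1 : ℕ := ⌊(Y : ℝ) / r⌋₊ with hy1
    have hy1a : (y1 : ℝ) ≤ Y / r := Nat.floor_le (by positivity)
    have hy1b : (y0 : ℝ) + 1 ≤ y1 := by
      have := Nat.lt_floor_add_one ((Y : ℝ) / r)
      have h3 : (0 : ℝ) ≤ n0 := by positivity
      linarith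
    have hy1c : y0 ≤ y1 := by
      have : (y0 : ℝ) ≤ y1 := by linarith
      exact_mod_cast this
    have hy1d : 1 ≤ y1 := by
      have : (1 : ℝ) ≤ y1 := by
        have h4 : (0 : ℝ) ≤ y0 := by positivity
        linarith
      exact_mod_cast this
    have hy1e : y1 ≤ Y := by
      have : (y1 : ℝ) ≤ Y := by linarith
      exact_mod_cast this
    have hT1 := hTl y1 hy1c hy1d
    have hdiff := thc_diff κ a y1 Y hy1e
    have hdv : ∏ p ∈ (clsP κ a Y).filter (fun p => y1 < p), p ^ m ∣ q := by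
      apply prod_pow_dvd
      · intro p hp
        rw [Finset.mem_filter, mem_clsP] at hp
        exact hp.1.2.1
      · intro p hp
        rw [Finset.mem_filter] at hp
        by_contra hnd
        have h3 := hcon p (by rw [hG, Finset.mem_filter]; exact ⟨hp.1, hnd⟩)
        have h4 : y1 < p := hp.2
        rw [hy1, Nat.floor_lt (by positivity), div_lt_iff₀ hr0] at h4
        linarith
    have hle := Nat.le_of_dvd hq0 hdv
    have hpos : 0 < ∏ p ∈ (clsP κ a Y).filter (fun p => y1 < p), p ^ m := by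
      apply Finset.prod_pos
      intro p hp
      rw [Finset.mem_filter, mem_clsP] at hp
      exact pow_pos hp.1.2.1.pos _
    have hlog : Real.log ((∏ p ∈ (clsP κ a Y).filter (fun p => y1 < p), p ^ m : ℕ) : ℝ) ≤ L := by
      apply Real.log_le_log (by exact_mod_cast hpos)
      exact_mod_cast hle
    rw [log_prod_pow m _ (fun p hp => by rw [Finset.mem_filter, mem_clsP] at hp; exact hp.1.2.1)] at hlog
    have hS : (1 / φ - ε) * Y - (1 / φ + ε) * (Y / r) ≤
        ∑ p ∈ (clsP κ a Y).filter (fun p => y1 < p), Real.log (p : ℝ) := by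
      have h3 : (1 / φ + ε) * (y1 : ℝ) ≤ (1 / φ + ε) * (Y / r) := mul_le_mul_of_nonneg_left hy1a (by positivity)
      linarith [hTY.1, hT1.2]
    have hS2 : ((1 - 1 / r) / φ - 2 * ε) * Y ≤ (1 / φ - ε) * Y - (1 / φ + ε) * (Y / r) := by
      have h3 : (1 / φ - ε) * Y - (1 / φ + ε) * (Y / r) = ((1 - 1 / r) / φ) * Y - ε * Y - ε * (Y / r) := by
        field_simp
        ring
      have h4 : ε * ((Y : ℝ) / r) ≤ ε * Y := mul_le_mul_of_nonneg_left hYb hε.le
      rw [h3]
      linarith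
    have hm0 : (0 : ℝ) ≤ m := by positivity
    have h5 : (m : ℝ) * (((1 - 1 / r) / φ - 2 * ε) * Y) ≤ L :=
      (mul_le_mul_of_nonneg_left (hS2.trans hS) hm0).trans hlog
    have hpos2 : 0 < (m : ℝ) * ((1 - 1 / r) / φ - 2 * ε) := by
      by_contra hneg
      push Not at hneg
      have := mul_nonpos_of_nonpos_of_nonneg hneg hc.le
      linarith
    have h6 : (m : ℝ) * ((1 - 1 / r) / φ - 2 * ε) * (c * L - 1) ≤ (m : ℝ) * ((1 - 1 / r) / φ - 2 * ε) * Y :=
      mul_le_mul_of_nonneg_left hY2.le hpos2.le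
    linarith
  obtain ⟨p1, hp1G, hp1r⟩ := hex
  have hGne : G.Nonempty := ⟨p1, hp1G⟩
  set n := G.max' hGne with hn
  have hnG : n ∈ G := Finset.max'_mem _ _
  have hnp1 : p1 ≤ n := Finset.le_max' _ _ hp1G
  have hnr : (Y : ℝ) < r * n := by
    have h3 : (p1 : ℝ) ≤ n := by exact_mod_cast hnp1
    have := mul_le_mul_of_nonneg_left h3 hr0.le
    linarith
  have hnG' := hnG
  rw [hG, Finset.mem_filter, mem_clsP] at hnG'
  obtain ⟨⟨⟨hn1, hnY⟩, hnp, hna⟩, hnd⟩ := hnG'
  have hYn : (Y : ℝ) / r < n := by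
    rw [div_lt_iff₀ hr0]
    linarith
  have hnY' : (n : ℝ) ≤ Y := by exact_mod_cast hnY
  have hny0 : y0 ≤ n := by
    have : (y0 : ℝ) ≤ n := by
      have : (0 : ℝ) ≤ n0 := by positivity
      linarith
    exact_mod_cast this
  have hnn0 : n0 ≤ n := by
    have : (n0 : ℝ) ≤ n := by
      have : (0 : ℝ) ≤ y0 := by positivity
      linarith
    exact_mod_cast this
  have hTn := hTl n hny0 hn1
  set B := (clsP κ a Y).filter (fun p => n < p) with hB
  have hBp : ∀ p ∈ B, p.Prime := by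
    intro p hp
    rw [hB, Finset.mem_filter, mem_clsP] at hp
    exact hp.1.2.1
  have hBd : ∏ p ∈ B, p ^ m ∣ q := by
    apply prod_pow_dvd m q B hBp
    intro p hp
    rw [hB, Finset.mem_filter] at hp
    by_contra h3
    have h4 : p ∈ G := by rw [hG, Finset.mem_filter]; exact ⟨hp.1, h3⟩
    have h5 := Finset.le_max' _ _ h4
    rw [← hn] at h5
    omega
  obtain ⟨q', hq'⟩ := hBd
  have hq'0 : 0 < q' := by
    rcases Nat.eq_zero_or_pos q' with h | h
    · rw [h, mul_zero] at hq'; omega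
    · exact h
  refine ⟨n, q', B, hnp, hna, hnn0, hnY'.trans hY1, hnd, ?_, by rw [hq', mul_comm], ?_⟩
  · intro p hp
    refine ⟨hBp p hp, ?_, ?_⟩
    · rw [hB, Finset.mem_filter] at hp
      exact hp.2
    · rw [hB, Finset.mem_filter, mem_clsP] at hp
      have : (p : ℝ) ≤ Y := by exact_mod_cast hp.1.1.2
      linarith
  · have hPpos : 0 < ∏ p ∈ B, p ^ m := Finset.prod_pos fun p hp => pow_pos (hBp p hp).pos _
    have hlogq : L = m * ∑ p ∈ B, Real.log (p : ℝ) + Real.log q' := by
      have h3 : (q : ℝ) = ((∏ p ∈ B, p ^ m : ℕ) : ℝ) * (q' : ℝ) := by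
        rw [hq']
        push_cast
        rfl
      rw [hL, h3, Real.log_mul (by exact_mod_cast hPpos.ne') (by exact_mod_cast hq'0.ne'), log_prod_pow m B hBp]
    have hdiff := thc_diff κ a n Y hnY
    have hS : (1 / φ - ε) * Y - (1 / φ + ε) * n ≤ ∑ p ∈ B, Real.log (p : ℝ) := by
      rw [hB]
      linarith [hTY.1, hTn.2]
    have hS2 : (Y - n) / φ - 2 * ε * Y ≤ (1 / φ - ε) * Y - (1 / φ + ε) * n := by
      have h3 : (1 / φ - ε) * Y - (1 / φ + ε) * n = (Y - n) / φ - ε * Y - ε * n := by ring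
      have h4 : ε * (n : ℝ) ≤ ε * Y := mul_le_mul_of_nonneg_left hnY' hε.le
      rw [h3]
      linarith
    have hm0 : (0 : ℝ) ≤ m := by positivity
    have h5 : (m : ℝ) * ((Y - n) / φ - 2 * ε * Y) ≤ m * ∑ p ∈ B, Real.log (p : ℝ) :=
      mul_le_mul_of_nonneg_left (hS2.trans hS) hm0
    have h6 : Real.log (q' : ℝ) ≤ L - m * ((Y - n) / φ - 2 * ε * Y) := by linarith
    have h7 := mul_le_mul_of_nonneg_left h6 hα.le
    have h8 : β * ((Y : ℝ) - n) ≤ α * m / φ * (Y - n) := mul_le_mul_of_nonneg_right h0 (by linarith)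
    have h9 : α * (L - m * ((Y - n) / φ - 2 * ε * Y)) = α * L - α * m / φ * (Y - n) + 2 * ε * α * m * Y := by
      ring
    have hb : 0 < β - 2 * ε * α * m := by
      by_contra hneg
      push Not at hneg
      have := mul_nonpos_of_nonpos_of_nonneg hneg hc.le
      linarith
    have h10 : (β - 2 * ε * α * m) * (c * L - 1) ≤ (β - 2 * ε * α * m) * Y :=
      mul_le_mul_of_nonneg_left hY2.le hb.le
    linarith

end

end Pool.Agent.Q203.ZM
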