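import Pool.Agent.TH957.WM.Coef
import Pool.Agent.H343Z.Defs

/-!
# A sharper exponential bound for the partial fraction coefficients

The factor `2 ^ (90 n)` of the zeros is replaced by `((9/7)^18 (7/2)^4)^(5n)`.
-/

open Polynomial Pool.Agent.H337R2 Pool.Agent.H343Z

namespace Pool.Agent.Q203.ZM

noncomputable section

set_option autoImplicit false

open Pool.Agent.TH957.WM

/-- the bound of one binomial coefficient by the binomial theorem -/
lemma choose_weight (a b : ℕ) : ((a.choose b : ℕ) : ℚ) ≤ (9 / 7) ^ a * (7 / 2) ^ b := by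
  by_cases hb : b ≤ a
  · have h1 : ((9 : ℚ) / 7) ^ a = ∑ m ∈ Finset.range (a + 1), (2 / 7 : ℚ) ^ m * 1 ^ (a - m) * (a.choose m : ℕ) := by
      rw [← add_pow]
      norm_num
    have h2 : (2 / 7 : ℚ) ^ b * (a.choose b : ℕ) ≤ (9 / 7) ^ a := by
      rw [h1]
      have h3 : (2 / 7 : ℚ) ^ b * (a.choose b : ℕ) = (2 / 7 : ℚ) ^ b * 1 ^ (a - b) * (a.choose b : ℕ) := by
        rw [one_pow, mul_one]
      rw [h3]
      exact Finset.single_le_sum (f := fun m => (2 / 7 : ℚ) ^ m * 1 ^ (a - m) * (a.choose m : ℕ))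
        (fun i _ => by positivity) (Finset.mem_range.2 (by omega))
    have h4 : (2 / 7 : ℚ) ^ b * (7 / 2) ^ b = 1 := by
      rw [← mul_pow]
      norm_num
    calc ((a.choose b : ℕ) : ℚ) = ((2 / 7 : ℚ) ^ b * (a.choose b : ℕ)) * (7 / 2) ^ b := by
          rw [mul_right_comm, h4, one_mul]
      _ ≤ _ := mul_le_mul_of_nonneg_right h2 (by positivity)
  · rw [Nat.choose_eq_zero_of_lt (by omega)]
    positivity

/-- the base of the bound of the zeros -/
def G0 : ℚ := ((9 / 7) ^ 18 * (7 / 2) ^ 4) ^ 5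

lemma G0_pos : 0 < G0 := by unfold G0; positivity

lemma zeros_le' (n : ℕ) {k : ℕ} (hk : k ∈ ss 18 2 n) :
    ∏ m ∈ Finset.Icc 1 (2 * n), (|-(k : ℚ) + m| ^ 5 * |-(k : ℚ) + (((18 : ℕ) : ℚ) * n - m)| ^ 5) ≤
      ((2 * n).factorial : ℚ) ^ (2 * 5) * G0 ^ n := by
  rw [ss, Finset.mem_Icc] at hk
  have hkn : k ≤ 18 * n := by omega
  have e1 : ∀ m ∈ Finset.Icc 1 (2 * n), |-(k : ℚ) + m| ^ 5 * |-(k : ℚ) + (((18 : ℕ) : ℚ) * n - m)| ^ 5 =
      (((k : ℚ) - m) * (((18 * n - k : ℕ) : ℚ) - m)) ^ 5 := by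
    intro m hm
    rw [Finset.mem_Icc] at hm
    have h3 : (m : ℚ) ≤ k := by exact_mod_cast (by omega : m ≤ k)
    have h4 : ((k + m : ℕ) : ℚ) ≤ ((18 * n : ℕ) : ℚ) := by exact_mod_cast (by omega : k + m ≤ 18 * n)
    push_cast at h4
    rw [mul_pow, Nat.cast_sub hkn]
    push_cast
    congr 1
    · rw [show -(k : ℚ) + m = -((k : ℚ) - m) by ring, abs_neg, abs_of_nonneg (by linarith)]
    · rw [show -(k : ℚ) + ((18 : ℚ) * n - m) = (18 : ℚ) * n - k - m by ring, abs_of_nonneg (by linarith)]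
  rw [Finset.prod_congr rfl e1, Finset.prod_pow, Finset.prod_mul_distrib,
    prod_dist k (2 * n) (by omega), prod_dist (18 * n - k) (2 * n) (by omega)]
  have h5 := choose_weight (k - 1) (2 * n)
  have h6 := choose_weight (18 * n - k - 1) (2 * n)
  have h5' : (((k - 1).choose (2 * n) : ℕ) : ℚ) ≤ (9 / 7) ^ k * (7 / 2) ^ (2 * n) := by
    refine h5.trans ?_
    apply mul_le_mul_of_nonneg_right _ (by positivity)
    exact pow_le_pow_right₀ (by norm_num) (by omega)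
  have h6' : (((18 * n - k - 1).choose (2 * n) : ℕ) : ℚ) ≤ (9 / 7) ^ (18 * n - k) * (7 / 2) ^ (2 * n) := by
    refine h6.trans ?_
    apply mul_le_mul_of_nonneg_right _ (by positivity)
    exact pow_le_pow_right₀ (by norm_num) (by omega)
  have h7 : (0 : ℚ) ≤ ((2 * n).factorial : ℚ) := by positivity
  calc (((2 * n).factorial : ℚ) * ((k - 1).choose (2 * n) : ℚ) *
        (((2 * n).factorial : ℚ) * ((18 * n - k - 1).choose (2 * n) : ℚ))) ^ 5
      ≤ (((2 * n).factorial : ℚ) * ((9 / 7) ^ k * (7 / 2) ^ (2 * n)) *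
        (((2 * n).factorial : ℚ) * ((9 / 7) ^ (18 * n - k) * (7 / 2) ^ (2 * n)))) ^ 5 := by
        gcongr
    _ = _ := by
        have e2 : ((9 : ℚ) / 7) ^ k * (9 / 7) ^ (18 * n - k) = ((9 / 7) ^ 18) ^ n := by
          rw [← pow_add, ← pow_mul]
          congr 1
          omega
        have e3 : ((7 : ℚ) / 2) ^ (2 * n) * (7 / 2) ^ (2 * n) = ((7 / 2) ^ 4) ^ n := by
          rw [← pow_add, ← pow_mul]
          congr 1
          omega
        rw [show ((2 * n).factorial : ℚ) * ((9 / 7) ^ k * (7 / 2) ^ (2 * n)) *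
          (((2 * n).factorial : ℚ) * ((9 / 7) ^ (18 * n - k) * (7 / 2) ^ (2 * n))) =
          ((2 * n).factorial : ℚ) ^ 2 * ((((9 : ℚ) / 7) ^ k * (9 / 7) ^ (18 * n - k)) *
            (((7 : ℚ) / 2) ^ (2 * n) * (7 / 2) ^ (2 * n))) by ring, e2, e3, ← mul_pow, mul_pow, ← pow_mul,
          ← pow_mul]
        unfold G0
        rw [← pow_mul]
        congr 2
        ring

/-- the basic factor of all coefficients -/
theorem base_AB' (n : ℕ) (hn : 1 ≤ n) {k : ℕ} (hk : k ∈ sN n) :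
    AB (1 + 20 * n + ∑ m ∈ sN n, muN n m : ℚ)
      ((G0 * 2 ^ 120) ^ n * (18 * n + 2))
      (TS (-(k : ℚ)) (PPn n) * VV ((sN n).erase k) (muN n) (-(k : ℚ))) := by
  intro j
  have hc : ∀ d ∈ ds10, 2 < d := by decide
  have h2 : ∀ d ∈ ds10, 2 * d < 18 := by decide
  have hk' := hk
  rw [sN, ss, Finset.mem_Icc] at hk'
  have hkn : (k : ℚ) ≤ (18 : ℚ) * n := by exact_mod_cast (by omega : k ≤ 18 * n)
  have hk0 : (0 : ℚ) ≤ k := by positivity
  unfold PPn PP NN VV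
  rw [(TS (-(k : ℚ))).map_mul, (TS (-(k : ℚ))).map_mul, TS_C, TS_lin2, map_prod]
  have hB2 : (2 : ℚ) ≤ ((18 : ℕ) : ℚ) * n + 2 := by
    have : (0 : ℚ) ≤ ((18 : ℕ) : ℚ) * n := by positivity
    linarith
  have e1 : AB 0 (cst 5 18 2 n ds10) (PowerSeries.C (cst 5 18 2 n ds10)) :=
    AB.C (by rw [abs_of_nonneg (cst_nonneg _ _ _ _ _)])
  have e2 : AB 1 (((18 : ℕ) : ℚ) * n + 2) (PowerSeries.C 2 * PowerSeries.X +
      PowerSeries.C (2 * (-(k : ℚ)) + ((18 : ℕ) : ℚ) * n)) := by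
    apply AB_lin2 hB2
    push_cast
    rw [abs_le]
    constructor <;> linarith
  have e3 : AB (∑ x ∈ Finset.Icc 1 (2 * n), (((5 : ℕ) : ℚ) * 1 + ((5 : ℕ) : ℚ) * 1))
      (∏ m ∈ Finset.Icc 1 (2 * n), (|-(k : ℚ) + m| ^ 5 * |-(k : ℚ) + (((18 : ℕ) : ℚ) * n - m)| ^ 5))
      (∏ x ∈ Finset.Icc 1 (2 * n), (TS (-(k : ℚ))) ((X + C (x : ℚ)) ^ 5 * (X + C (((18 : ℕ) : ℚ) * n - x)) ^ 5)) := by
    apply AB.prod
    · intro i _; positivity
    · intro m _; positivity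
    · intro m hm
      rw [Finset.mem_Icc] at hm
      rw [map_mul, map_pow, map_pow, TS_lin, TS_lin]
      have h3 : (1 : ℚ) ≤ |-(k : ℚ) + m| := abs_ge_one (by omega)
      have h4 : (1 : ℚ) ≤ |-(k : ℚ) + (((18 : ℕ) : ℚ) * n - m)| := by
        refine le_trans ?_ (le_abs_self _)
        have : ((k + m + 1 : ℕ) : ℚ) ≤ ((18 * n : ℕ) : ℚ) := by exact_mod_cast (by omega : k + m + 1 ≤ 18 * n)
        push_cast at this ⊢
        linarith
      apply AB.mul (by positivity) (by positivity) (by positivity) (by positivity)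
      · exact AB.pow zero_le_one (by positivity) (AB_linX h3) 5
      · exact AB.pow zero_le_one (by positivity) (AB_linX h4) 5
  have e4 : AB (∑ m ∈ (ss 18 2 n).erase k, ((mu 18 n ds10 m : ℚ) * 1))
      (∏ m ∈ (ss 18 2 n).erase k, (|-(k : ℚ) + m|⁻¹) ^ mu 18 n ds10 m)
      (∏ m ∈ (ss 18 2 n).erase k, iv (-(k : ℚ) + m) ^ mu 18 n ds10 m) := by
    apply AB.prod
    · intro i _; positivity
    · intro i _; positivity
    · intro m hm
      rw [Finset.mem_erase] at hm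
      exact AB.pow zero_le_one (by positivity) (AB_iv (abs_ge_one hm.1)) _
  have hc0 := cst_nonneg 5 18 2 n ds10
  have e5 := AB.mul (by positivity) (by positivity) (by positivity) (by positivity)
    (AB.mul (by positivity) (by positivity) (by positivity) (by positivity)
      (AB.mul le_rfl zero_le_one hc0 (by positivity) e1 e2) e3) e4
  have e6 := e5 j
  refine e6.trans ?_
  have a1 := zeros_le' n hk
  have a2 := poles_le 18 2 n ds10 hn hc h2 hk
  have a3 : (0 + 1 + ∑ x ∈ Finset.Icc 1 (2 * n), (((5 : ℕ) : ℚ) * 1 + ((5 : ℕ) : ℚ) * 1) +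
      ∑ m ∈ (ss 18 2 n).erase k, ((mu 18 n ds10 m : ℚ) * 1)) ≤
      (1 + 20 * n + ∑ m ∈ ss 18 2 n, mu 18 n ds10 m : ℚ) := by
    have : ∑ m ∈ (ss 18 2 n).erase k, ((mu 18 n ds10 m : ℚ) * 1) ≤ ∑ m ∈ ss 18 2 n, (mu 18 n ds10 m : ℚ) := by
      simp only [mul_one]
      exact Finset.sum_le_sum_of_subset_of_nonneg (Finset.erase_subset _ _) fun _ _ _ => by positivity
    rw [Finset.sum_const, Nat.card_Icc]
    simp only [nsmul_eq_mul, Nat.add_sub_cancel]
    push_cast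
    linarith
  have a30 : 0 ≤ (0 + 1 + ∑ x ∈ Finset.Icc 1 (2 * n), (((5 : ℕ) : ℚ) * 1 + ((5 : ℕ) : ℚ) * 1) +
      ∑ m ∈ (ss 18 2 n).erase k, ((mu 18 n ds10 m : ℚ) * 1)) := by positivity
  have hG : 0 ≤ G0 := G0_pos.le
  apply mul_le_mul _ (pow_le_pow_left₀ a30 a3 j) (by positivity) (by positivity)
  have hF : (0 : ℚ) < ((2 * n).factorial : ℚ) ^ (2 * 5) := by positivity
  have a4 : cst 5 18 2 n ds10 * (((18 : ℕ) : ℚ) * n + 2) *
      (∏ m ∈ Finset.Icc 1 (2 * n), (|-(k : ℚ) + m| ^ 5 * |-(k : ℚ) + (((18 : ℕ) : ℚ) * n - m)| ^ 5)) *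
      (∏ m ∈ (ss 18 2 n).erase k, (|-(k : ℚ) + m|⁻¹) ^ mu 18 n ds10 m) =
      (((18 : ℕ) : ℚ) * n + 2) * (((∏ m ∈ Finset.Icc 1 (2 * n), (|-(k : ℚ) + m| ^ 5 *
        |-(k : ℚ) + (((18 : ℕ) : ℚ) * n - m)| ^ 5)) /
        ((2 * n).factorial : ℚ) ^ (2 * 5)) * ((ds10.map fun d => (Nat.factorial ((18 - 2 * d) * n) : ℚ)).prod *
        ∏ m ∈ (ss 18 2 n).erase k, (|-(k : ℚ) + m|⁻¹) ^ mu 18 n ds10 m)) := by
    unfold cst
    field_simp
  rw [a4]
  have a5 : (∏ m ∈ Finset.Icc 1 (2 * n), (|-(k : ℚ) + m| ^ 5 * |-(k : ℚ) + (((18 : ℕ) : ℚ) * n - m)| ^ 5)) /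
        ((2 * n).factorial : ℚ) ^ (2 * 5) ≤ G0 ^ n := by
    rw [div_le_iff₀ hF, mul_comm (G0 ^ n)]
    exact a1
  have a6 : 0 ≤ (ds10.map fun d => (Nat.factorial ((18 - 2 * d) * n) : ℚ)).prod *
        ∏ m ∈ (ss 18 2 n).erase k, (|-(k : ℚ) + m|⁻¹) ^ mu 18 n ds10 m := by
    apply mul_nonneg
    · apply List.prod_nonneg
      intro x hx
      rw [List.mem_map] at hx
      obtain ⟨d', _, rfl⟩ := hx
      positivity
    · positivity
  have a7 : (List.map (fun d => 18 - 2 * d) ds10).sum = 120 := by decide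
  rw [a7] at a2
  calc _ ≤ (((18 : ℕ) : ℚ) * n + 2) * (G0 ^ n * 2 ^ (120 * n)) := by
        apply mul_le_mul_of_nonneg_left _ (by linarith)
        exact mul_le_mul a5 a2 a6 (by positivity)
    _ = _ := by
        rw [mul_pow, ← pow_mul 2 120 n]
        push_cast
        ring

/-- the coefficients when the numerator is multiplied by a polynomial -/
theorem pa_mul_le' (n : ℕ) (hn : 1 ≤ n) {k : ℕ} (hk : k ∈ sN n) (E : ℚ[X]) (cE BE : ℚ)
    (hcE : 0 ≤ cE) (hBE : 0 ≤ BE) (hE : AB cE BE (TS (-(k : ℚ)) E)) (i : ℕ) :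
    |pa (sN n) (muN n) (PPn n * E) k i| ≤
      (G0 * 2 ^ 120) ^ n * (18 * n + 2) * BE * (1 + 20 * n + ∑ m ∈ sN n, muN n m + cE : ℚ) ^ 10 := by
  have hG : 0 ≤ G0 := G0_pos.le
  have h1 : (1 : ℚ) ≤ 1 + 20 * n + ∑ m ∈ sN n, muN n m + cE := by
    have : (0 : ℚ) ≤ 20 * n + ∑ m ∈ sN n, (muN n m : ℚ) := by positivity
    push_cast at this ⊢
    linarith
  unfold pa
  split_ifs with hi
  · unfold pfc
    rw [(TS (-(k : ℚ))).map_mul]
    have e : TS (-(k : ℚ)) (PPn n) * TS (-(k : ℚ)) E * VV ((sN n).erase k) (muN n) (-(k : ℚ)) =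
        (TS (-(k : ℚ)) (PPn n) * VV ((sN n).erase k) (muN n) (-(k : ℚ))) * TS (-(k : ℚ)) E := by
      ring
    rw [e]
    have h3 := AB.mul (by positivity) hcE (by positivity) hBE (base_AB' n hn hk) hE
    refine (h3 _).trans ?_
    apply mul_le_mul_of_nonneg_left _ (by positivity)
    push_cast
    push_cast at h1
    apply pow_le_pow_right₀ h1
    have h4 := mu_le_length 18 n ds10 k
    have h5 : ds10.length = 10 := rfl
    rw [h5] at h4
    have h6 : muN n k = mu 18 n ds10 k := rfl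
    omega
  · rw [abs_zero]
    positivity

end

end Pool.Agent.Q203.ZM
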