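import Pool.Agent.Q203.ZM.Key
import Pool.Agent.Q203.ZM.Sel

/-!
# A simultaneous measure of irrationality for `ζ(7), ζ(9), ζ(11), ζ(13)` with exponent `435`
-/

open Polynomial Pool.Agent.H337R2 Pool.Agent.H343Z Filter Topology Pool.Agent.TH957.ZM

namespace Pool.Agent.Q203.ZM

noncomputable section

set_option autoImplicit false

/-- the measure for large denominators -/
theorem meas_large' : ∃ q0 : ℕ, ∀ q : ℕ, q0 ≤ q → ∀ P : ℕ → ℤ, ∃ j, (j = 7 ∨ j = 9 ∨ j = 11 ∨ j = 13) ∧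
    1 / (q : ℝ) ^ 435 ≤ |zr j - (P j : ℝ) / q| := by
  obtain ⟨n0, hkey⟩ := key'
  have hφ : ((Nat.totient 24 : ℕ) : ℝ) = 8 := by
    have : Nat.totient 24 = 8 := by decide
    rw [this]; norm_num
  have hpr := select 24 (by norm_num) 1 isUnit_one 7 25 (1445 / 100) (17305 / 10000) 8 (1 / 200000) (by norm_num)
    (by norm_num) (by norm_num) (by norm_num) (by rw [hφ]; norm_num) (by norm_num) (by rw [hφ]; norm_num) n0
  obtain ⟨q1, hq1⟩ := eventually_atTop.1 hpr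
  refine ⟨q1 + 1, fun q hq P => ?_⟩
  have hq0 : 0 < q := by omega
  have hqr : (0 : ℝ) < q := by exact_mod_cast hq0
  obtain ⟨n, q', B, hnp, hn1, hnn0, hnc, hnq, hB, hqq, hlq⟩ := hq1 q (by omega)
  have hnmod : n % 24 = 1 := by
    have h1 : ((n : ℕ) : ZMod 24) = ((1 : ℕ) : ZMod 24) := by rw [hn1, Nat.cast_one]
    rw [ZMod.natCast_eq_natCast_iff] at h1
    exact h1
  set u : ℕ → ℚ := fun l => if l = 3 ∨ l = 5 ∨ l = 7 ∨ l = 9 then (P (l + 4) : ℚ) / q else 0 with hu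
  have hUI : Pool.Agent.H336R2.HD.UInt q u := by
    refine ⟨hq0, fun i => ?_⟩
    have hq' : (q : ℚ) ≠ 0 := by exact_mod_cast hq0.ne'
    by_cases hi : i = 3 ∨ i = 5 ∨ i = 7 ∨ i = 9
    · refine ⟨P (i + 4), ?_⟩
      simp only [hu, if_pos hi]
      field_simp
    · refine ⟨0, ?_⟩
      simp only [hu, if_neg hi, mul_zero, Int.cast_zero]
  have hu0 : ∀ i, ¬ (i = 3 ∨ i = 5 ∨ i = 7 ∨ i = 9) → u i = 0 := by
    intro i hi
    simp only [hu, if_neg hi]
  have hB' : ∀ p ∈ B, p.Prime ∧ n < p ∧ 2 * p < 17 * n := by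
    intro p hp
    obtain ⟨h1, h2, h3⟩ := hB p hp
    refine ⟨h1, h2, ?_⟩
    have h4 : p < 8 * n := by exact_mod_cast h3
    omega
  obtain ⟨l, hl, hlt⟩ := hkey n hnn0 hnp hnmod q q' B u hUI hu0 hnq hB' hqq hlq
  refine ⟨l + 4, by omega, ?_⟩
  have e1 : ((u l : ℚ) : ℝ) = (P (l + 4) : ℝ) / q := by
    simp only [hu, if_pos hl]
    push_cast
    rfl
  rw [e1] at hlt
  refine le_trans ?_ hlt.le
  have e2 : 1 / (q : ℝ) ^ 435 = Real.exp (-(435 * Real.log q)) := by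
    rw [Real.exp_neg, one_div]
    congr 1
    rw [← Real.exp_log (pow_pos hqr 435), Real.log_pow]
    norm_num
  rw [e2]
  apply Real.exp_le_exp.2
  have hL : 0 ≤ Real.log q := Real.log_natCast_nonneg q
  linarith

/-- **The simultaneous measure.** -/
theorem main' : ∃ c : ℝ, 0 < c ∧ ∀ (P : ℕ → ℤ) (q : ℕ), 0 < q → ∃ j, (j = 7 ∨ j = 9 ∨ j = 11 ∨ j = 13) ∧
    c / (q : ℝ) ^ 435 ≤ |zr j - (P j : ℝ) / q| := by
  obtain ⟨q0, hq0⟩ := meas_large'
  -- one of the values is irrational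
  obtain ⟨j0, hj0, hirr⟩ : ∃ j0, (j0 = 7 ∨ j0 = 9 ∨ j0 = 11 ∨ j0 = 13) ∧ Irrational (zr j0) := by
    rcases Z_main with h | h | h | h
    · exact ⟨7, by omega, h⟩
    · exact ⟨9, by omega, h⟩
    · exact ⟨11, by omega, h⟩
    · exact ⟨13, by omega, h⟩
  -- the distance of `q ζ(j0)` to the nearest integer
  set δ : ℕ → ℝ := fun q => |zr j0 * q - round (zr j0 * q)| with hδ
  have hδ0 : ∀ q : ℕ, 0 < q → 0 < δ q := by
    intro q hq
    rw [hδ]
    apply abs_pos.2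
    intro h
    apply hirr
    have hqr : (q : ℝ) ≠ 0 := by exact_mod_cast hq.ne'
    refine ⟨(round (zr j0 * q) : ℚ) / q, ?_⟩
    push_cast
    rw [div_eq_iff hqr]
    linarith
  obtain ⟨m, hm0, hm⟩ : ∃ m : ℝ, 0 < m ∧ ∀ q : ℕ, 0 < q → q < q0 → m ≤ δ q := by
    clear hq0
    induction q0 with
    | zero => exact ⟨1, one_pos, fun q _ h => absurd h (by omega)⟩
    | succ k ih =>
      obtain ⟨m, hm0, hm⟩ := ih
      by_cases hk : 0 < k
      · refine ⟨min m (δ k), lt_min hm0 (hδ0 k hk), fun q h1 h2 => ?_⟩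
        rcases Nat.lt_succ_iff_lt_or_eq.1 h2 with h | h
        · exact (min_le_left _ _).trans (hm q h1 h)
        · rw [h]; exact min_le_right _ _
      · exact ⟨m, hm0, fun q h1 h2 => absurd h1 (by omega)⟩
  refine ⟨min 1 m, lt_min one_pos hm0, fun P q hq => ?_⟩
  have hqr : (1 : ℝ) ≤ q := by exact_mod_cast hq
  have hq0' : (0 : ℝ) < q := by linarith
  have hpow : 0 < (q : ℝ) ^ 435 := pow_pos hq0' _
  by_cases h : q0 ≤ q
  · obtain ⟨j, hj, hle⟩ := hq0 q h P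
    refine ⟨j, hj, le_trans ?_ hle⟩
    exact div_le_div_of_nonneg_right (min_le_left _ _) hpow.le
  · refine ⟨j0, hj0, ?_⟩
    have h1 := hm q hq (by omega)
    have h2 : δ q ≤ |zr j0 * q - (P j0 : ℝ)| := by
      rw [hδ]
      exact round_le _ _
    have h3 : |zr j0 - (P j0 : ℝ) / q| = |zr j0 * q - (P j0 : ℝ)| / q := by
      rw [← abs_of_pos hq0', ← abs_div, abs_of_pos hq0']
      congr 1
      field_simp
    rw [h3]
    have h4 : (q : ℝ) ≤ (q : ℝ) ^ 435 := le_self_pow₀ hqr (by norm_num)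
    calc min 1 m / (q : ℝ) ^ 435 ≤ m / (q : ℝ) ^ 435 :=
          div_le_div_of_nonneg_right (min_le_right _ _) hpow.le
      _ ≤ m / q := div_le_div_of_nonneg_left hm0.le hq0' h4
      _ ≤ _ := div_le_div_of_nonneg_right (h1.trans h2) hq0'.le

end

end Pool.Agent.Q203.ZM
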