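import Pool.Agent.H343Z.H1
import Pool.Agent.H343Z.H3
import Pool.Agent.TH957.ZM.Rho

/-!
# The block structure modulo `p` at points with small denominators

The results H3 and H4 on the entries modulo `p`, when the `p`-adic norm of `u i` is at most `p ^ (i + 3)`.
-/

open Polynomial Pool.Agent.H337R2 Pool.Agent.H343Z Pool.Agent.H343Z.H3 Pool.Agent.TH957.ZM

namespace Pool.Agent.Q203.ZM

noncomputable section

set_option autoImplicit false

section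

variable {p : ℕ} [hp : Fact p.Prime]

/-- `xf` is small if all coefficients are -/
lemma xf_le_weak (u : ℕ → ℚ) (hu : ∀ i, padicNorm p (u i) ≤ (p : ℚ) ^ (i + 4)) (hp30 : 60 ≤ p) (P : ℚ[X]) (W : ℚ)
    (hW : 0 ≤ W) (h : ∀ k ∈ sN p, ∀ i, padicNorm p (pa (sN p) (muN p) P k i) * (p : ℚ) ^ (i + 4) ≤ W) :
    padicNorm p (xf p u P) ≤ W := by
  unfold xf
  apply padicNorm.sum_le' _ hW
  intro i _
  rw [padicNorm.mul]
  have e1 : padicNorm p (((Nat.choose (i + 3) 4 : ℕ) : ℚ)) ≤ 1 := padicNorm.of_nat _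
  have e2 : padicNorm p ((∑ k ∈ sN p, pa (sN p) (muN p) P k i) * u i -
      ∑ k ∈ sN p, pa (sN p) (muN p) P k i * hs (i + 4) (k - 2 * p - 1)) ≤ W := by
    refine padicNorm.sub.trans (max_le ?_ ?_)
    · rw [Finset.sum_mul]
      apply padicNorm.sum_le' _ hW
      intro k hk
      rw [padicNorm.mul]
      refine le_trans ?_ (h k hk i)
      exact mul_le_mul_of_nonneg_left (hu i) (padicNorm.nonneg _)
    · apply padicNorm.sum_le' _ hW
      intro k hk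
      rw [padicNorm.mul]
      refine le_trans ?_ (h k hk i)
      apply mul_le_mul_of_nonneg_left _ (padicNorm.nonneg _)
      apply hs_norm_med
      rw [sN, ss, Finset.mem_Icc] at hk
      have : 18 * p < p * p := Nat.mul_lt_mul_of_pos_right (by omega) hp.out.pos
      rw [sq]
      omega
  calc _ ≤ 1 * W := mul_le_mul e1 e2 (padicNorm.nonneg _) zero_le_one
    _ = W := one_mul W

theorem H4_weak (hp30 : 60 ≤ p) (u : ℕ → ℚ) (hu : ∀ i, padicNorm p (u i) ≤ (p : ℚ) ^ (i + 4))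
    (r s l l' : ℕ) (hr1 : 1 ≤ r) (hr2 : 2 * r < p) (hs1 : 1 ≤ s) (hs2 : 2 * s < p) (hrs : r ≠ s)
    (hl : l < 50) (hl' : l' < 50) :
    padicNorm p ((p : ℚ) ^ (4 - (l : ℤ) - (l' : ℤ)) * NL p u
      ((XN p r ^ l * ∏ r' ∈ (Finset.Icc 1 ((p - 1) / 2)).erase r, XN p r' ^ 50) *
       (XN p s ^ l' * ∏ r' ∈ (Finset.Icc 1 ((p - 1) / 2)).erase s, XN p r' ^ 50))) ≤ (p : ℚ)⁻¹ := by
  have hp0 : (0 : ℚ) < p := p_pos'
  have hp2 : 18 * p < p ^ 2 := by
    have : 18 * p < p * p := Nat.mul_lt_mul_of_pos_right (by omega) (by omega)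
    rw [sq]
    exact this
  rw [NL_apply]
  have key := xf_le_weak u hu hp30 (PPn p * EE p
      ((XN p r ^ l * ∏ r' ∈ (Finset.Icc 1 ((p - 1) / 2)).erase r, XN p r' ^ 50) *
       (XN p s ^ l' * ∏ r' ∈ (Finset.Icc 1 ((p - 1) / 2)).erase s, XN p r' ^ 50)))
    ((p : ℚ) ^ (4 - (l : ℤ) - (l' : ℤ)) * (p : ℚ)⁻¹) (by positivity) (by
      intro k hk i
      have h1 := C1_pa_mul (by omega) hp2 _ hk _ (H1_A_nonneg r s l l' k) (H1_PB r s l l' k) i
      have h2 := H1_A_le hp30 r s l l' hr1 hr2 hs1 hs2 hrs hl hl' k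
      calc _ ≤ ((p : ℚ) ^ (-(eeN p p k) - i : ℤ) * H1_A p r s l l' k) * (p : ℚ) ^ (i + 4) :=
            mul_le_mul_of_nonneg_right h1 (by positivity)
        _ = (p : ℚ) ^ (4 - (l : ℤ) - (l' : ℤ)) *
            ((p : ℚ) ^ (((l : ℤ) + l') - eeN p p k) * H1_A p r s l l' k) := by
            have e1 : (p : ℚ) ^ (-(eeN p p k) - i : ℤ) * (p : ℚ) ^ (i + 4) =
                (p : ℚ) ^ (4 - (l : ℤ) - (l' : ℤ)) * (p : ℚ) ^ (((l : ℤ) + l') - eeN p p k) := by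
              rw [← zpow_natCast (p : ℚ) (i + 4), ← zpow_add₀ hp0.ne', ← zpow_add₀ hp0.ne']
              congr 1
              push_cast
              ring
            linear_combination (H1_A p r s l l' k) * e1
        _ ≤ _ := mul_le_mul_of_nonneg_left h2 (by positivity))
  rw [padicNorm.mul]
  have h5 : padicNorm p ((p : ℚ) ^ (4 - (l : ℤ) - (l' : ℤ))) = (p : ℚ) ^ (-(4 - (l : ℤ) - (l' : ℤ))) :=
    Pool.Agent.H336R2.HD.H1_norm_zpow _
  rw [h5]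
  calc _ ≤ (p : ℚ) ^ (-(4 - (l : ℤ) - (l' : ℤ))) * ((p : ℚ) ^ (4 - (l : ℤ) - (l' : ℤ)) * (p : ℚ)⁻¹) :=
        mul_le_mul_of_nonneg_left key (by positivity)
    _ = (p : ℚ)⁻¹ := by
        rw [← mul_assoc, ← zpow_add₀ hp0.ne', neg_add_cancel, zpow_zero, one_mul]

omit hp in
/-- the dependence on `u` -/
lemma NL_u (n : ℕ) (u : ℕ → ℚ) (Q : ℚ[X]) : NL n u Q = NL n (fun _ => 0) Q +
    ∑ i ∈ Finset.Icc 1 10, ((Nat.choose (i + 3) 4 : ℕ) : ℚ) * (rho n Q i * u i) := by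
  rw [NL_apply, NL_apply]
  unfold xf rho
  rw [← Finset.sum_add_distrib]
  apply Finset.sum_congr rfl
  intro i _
  ring

theorem H3_weak (hp30 : 60 ≤ p) (u : ℕ → ℚ) (hu : ∀ i, padicNorm p (u i) ≤ (p : ℚ) ^ (i + 3))
    (r : ℕ) (hr1 : 1 ≤ r) (hr2 : 2 * r < p) :
    ∃ w : ℚ, padicNorm p w = 1 ∧ ∀ e : ℕ, e ≤ 98 →
      padicNorm p ((p : ℚ) ^ (4 - (e : ℤ)) * NL p u (XN p r ^ e *
        ∏ r' ∈ (Finset.Icc 1 ((p - 1) / 2)).erase r, XN p r' ^ 100) -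
        w * (-2 * r) ^ e * Fm e) ≤ (p : ℚ)⁻¹ := by
  obtain ⟨w, hw1, hw2⟩ := H3_diag hp30 (fun _ => 0) (fun i => by simp) r hr1 hr2
  refine ⟨w, hw1, fun e he => ?_⟩
  have h1 := hw2 e he
  have hp0 : (0 : ℚ) < p := p_pos'
  have hp1 : (1 : ℚ) ≤ p := p_one'
  rw [NL_u]
  have e1 : (p : ℚ) ^ (4 - (e : ℤ)) * (NL p (fun _ => 0) (XN p r ^ e *
        ∏ r' ∈ (Finset.Icc 1 ((p - 1) / 2)).erase r, XN p r' ^ 100) +
        ∑ i ∈ Finset.Icc 1 10, ((Nat.choose (i + 3) 4 : ℕ) : ℚ) * (rho p (XN p r ^ e *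
        ∏ r' ∈ (Finset.Icc 1 ((p - 1) / 2)).erase r, XN p r' ^ 100) i * u i)) -
        w * (-2 * r) ^ e * Fm e =
      ((p : ℚ) ^ (4 - (e : ℤ)) * NL p (fun _ => 0) (XN p r ^ e *
        ∏ r' ∈ (Finset.Icc 1 ((p - 1) / 2)).erase r, XN p r' ^ 100) - w * (-2 * r) ^ e * Fm e) +
        ∑ i ∈ Finset.Icc 1 10, ((Nat.choose (i + 3) 4 : ℕ) : ℚ) * (∑ k ∈ sN p,
          (p : ℚ) ^ (4 - (e : ℤ)) * (pa (sN p) (muN p) (PPn p * EE p (Qr p r e)) k i * u i)) := by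
    rw [mul_add, add_sub_right_comm]
    congr 1
    rw [Finset.mul_sum]
    apply Finset.sum_congr rfl
    intro i _
    unfold rho Qr
    rw [← Finset.mul_sum, ← Finset.sum_mul]
    ring
  rw [e1]
  refine nadd h1 ?_
  apply padicNorm.sum_le' _ inv0
  intro i hi
  rw [Finset.mem_Icc] at hi
  have hc : padicNorm p ((Nat.choose (i + 3) 4 : ℕ) : ℚ) ≤ 1 := padicNorm.of_nat _
  have h3 : ∀ {x : ℚ}, padicNorm p x ≤ (p : ℚ)⁻¹ →
      padicNorm p (((Nat.choose (i + 3) 4 : ℕ) : ℚ) * x) ≤ (p : ℚ)⁻¹ := fun {x} hx => by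
    have := nmul hc hx
    rwa [one_mul] at this
  apply h3
  apply padicNorm.sum_le' _ inv0
  intro k hk
  by_cases hnear : (p : ℤ) ∣ (k : ℤ) - r ∨ (p : ℤ) ∣ (k : ℤ) + r
  · have hk0 : ¬ (p : ℤ) ∣ (k : ℤ) := by
      intro h0
      have h4 : (p : ℤ) ∣ (r : ℤ) := by
        rcases hnear with h | h
        · have := dvd_sub h0 h
          rwa [sub_sub_cancel] at this
        · have := dvd_sub h h0
          rwa [add_sub_cancel_left] at this
      have h5 : p ∣ r := by exact_mod_cast h4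
      have := Nat.le_of_dvd hr1 h5
      omega
    have h4 := pa_near hp30 r e k i hk hk0 hnear
    have h5 := nmul (norm_pzpow (p := p) e).le (nmul h4 (hu i))
    refine h5.trans ?_
    rw [← zpow_natCast, ← zpow_add₀ hp0.ne', ← zpow_add₀ hp0.ne', ← zpow_neg_one]
    apply zpow_le_zpow_right₀ hp1
    push_cast
    omega
  · have h4 := pa_far hp30 r e k i hk hnear
    have h5 := nmul (norm_pzpow (p := p) e).le (nmul h4 (hu i))
    refine h5.trans ?_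
    rw [← zpow_natCast, ← zpow_add₀ hp0.ne', ← zpow_add₀ hp0.ne', ← zpow_neg_one]
    apply zpow_le_zpow_right₀ hp1
    push_cast
    omega

end

end

end Pool.Agent.Q203.ZM
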