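import Pool.Agent.Q203.ZM.Rho
import Pool.Agent.TH957.ZM.Pert

/-!
# The perturbation is smaller than the bound of the entries (sharper form)
-/

open Polynomial Pool.Agent.H337R2 Pool.Agent.H343Z Filter Topology Pool.Agent.TH957.ZM

namespace Pool.Agent.Q203.ZM

noncomputable section

set_option autoImplicit false

/-- exponents of two of the stages, part 1, times four -/
def kk1 (s : ℕ) : ℕ := [1869, 1878, 1884, 1888].getD s 0

/-- exponents of two of the stages, part 2, times four -/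
def kk2 (s : ℕ) : ℕ := [3072, 3089, 3106, 3123, 3144, 3161, 3180, 3204, 3223, 3245].getD s 0

lemma A1_pow (s : ℕ) (hs : s < 4) : A1 s ^ 4 ≤ 65536 ^ (kk1 s / 16) * 2 ^ (kk1 s % 16) := by
  interval_cases s <;> norm_num [A1, Mab, at1, la1, sg1, ls1, kk1, Finset.prod_range_succ]

lemma A2_pow (s : ℕ) (hs : s < 10) : A2 s ^ 4 ≤ 65536 ^ (kk2 s / 16) * 2 ^ (kk2 s % 16) := by
  interval_cases s <;> norm_num [A2, Mab, at2, la2, sg2, ls2, kk2, Finset.prod_range_succ]

lemma log_of_pow {x : ℝ} (hx : 0 < x) {K : ℕ} (h : x ^ 4 ≤ 65536 ^ (K / 16) * 2 ^ (K % 16)) :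
    Real.log x ≤ Real.log 2 / 4 * K := by
  have e : (65536 : ℝ) ^ (K / 16) * 2 ^ (K % 16) = 2 ^ K := by
    rw [show (65536 : ℝ) = 2 ^ 16 by norm_num, ← pow_mul, ← pow_add, Nat.div_add_mod]
  rw [e] at h
  have h1 := Real.log_le_log (by positivity) h
  rw [Real.log_pow, Real.log_pow] at h1
  push_cast at h1
  linarith

lemma A1_pos (s : ℕ) (hs : s < 4) : 0 < A1 s := by
  interval_cases s <;> norm_num [A1, Mab, at1, la1, sg1, ls1, Finset.prod_range_succ]

lemma A2_pos (s : ℕ) (hs : s < 10) : 0 < A2 s := by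
  interval_cases s <;> norm_num [A2, Mab, at2, la2, sg2, ls2, Finset.prod_range_succ]

lemma log_A1 (s : ℕ) (hs : s < 4) : Real.log ((A1 s : ℚ) : ℝ) ≤ Real.log 2 / 4 * kk1 s := by
  apply log_of_pow (by exact_mod_cast A1_pos s hs)
  exact_mod_cast A1_pow s hs

lemma log_A2 (s : ℕ) (hs : s < 10) : Real.log ((A2 s : ℚ) : ℝ) ≤ Real.log 2 / 4 * kk2 s := by
  apply log_of_pow (by exact_mod_cast A2_pos s hs)
  exact_mod_cast A2_pow s hs

lemma log_57600 : 120 * Real.log 57600 ≤ Real.log 2 / 4 * 7591 := by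
  have h1 : Real.log (((57600 : ℝ) ^ 48) ^ 10) ≤ Real.log ((((2 : ℝ) ^ 250) ^ 30) * 2 ^ 91) := by
    apply Real.log_le_log (by positivity)
    norm_num
  rw [Real.log_mul (by positivity) (by positivity), Real.log_pow, Real.log_pow, Real.log_pow, Real.log_pow,
    Real.log_pow] at h1
  push_cast at h1
  linarith

lemma log_G : Real.log ((G0 * 2 ^ 120 : ℚ) : ℝ) ≤ 944 / 5 * Real.log 2 := by
  have h0 : (G0 * 2 ^ 120 : ℚ) ^ 5 ≤ (2 ^ 236) ^ 4 := by
    norm_num [G0]
  have h1 : ((G0 * 2 ^ 120 : ℚ) : ℝ) ^ 5 ≤ (2 ^ 236) ^ 4 := by exact_mod_cast h0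
  have hp : (0 : ℝ) < ((G0 * 2 ^ 120 : ℚ) : ℝ) := by
    have := G0_pos
    exact_mod_cast (by positivity : (0 : ℚ) < G0 * 2 ^ 120)
  generalize ((G0 * 2 ^ 120 : ℚ) : ℝ) = x at h1 hp ⊢
  have h2 := Real.log_le_log (by positivity) h1
  rw [Real.log_pow, Real.log_pow, Real.log_pow] at h2
  simp only [Nat.cast_ofNat] at h2
  linarith

/-- the exponents of two of the bound of the basis polynomials, times four -/
def KX (N i : ℕ) : ℕ :=
  if i < 120 * N then ∑ s ∈ Finset.range 4, kk1 s * e1 N i s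
  else 7591 * N + ∑ s ∈ Finset.range 10, kk2 s * e2 N (i - 120 * N) s

lemma KX_le (N i : ℕ) : KX N i ≤ EX N i + 5099 * N := by
  unfold KX EX
  have h1 : ∀ s, e1 N i s ≤ N := fun s => min_le_left _ _
  have h2 : ∀ s, e2 N (i - 120 * N) s ≤ N := fun s => min_le_left _ _
  split_ifs
  · simp only [Finset.sum_range_succ, Finset.sum_range_zero, kk1, t1, lt1, List.getD_cons_zero,
      List.getD_cons_succ, Nat.reduceSub]
    have a0 := h1 0
    have a1 := h1 1
    have a2 := h1 2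
    have a3 := h1 3
    omega
  · simp only [Finset.sum_range_succ, Finset.sum_range_zero, kk2, t2, lt2, List.getD_cons_zero,
      List.getD_cons_succ, Nat.reduceSub]
    have a0 := h2 0
    have a1 := h2 1
    have a2 := h2 2
    have a3 := h2 3
    have a4 := h2 4
    have a5 := h2 5
    have a6 := h2 6
    have a7 := h2 7
    have a8 := h2 8
    have a9 := h2 9
    omega

lemma le_exp_of_log_le {x y : ℝ} (hx : 0 < x) (h : Real.log x ≤ y) : x ≤ Real.exp y := by
  rw [← Real.exp_log hx]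
  exact Real.exp_le_exp.2 h

lemma AP_le_KX (N i : ℕ) : ((AP N i : ℚ) : ℝ) ≤ 46656 ^ 48 * Real.exp (Real.log 2 / 4 * KX N i) := by
  have hl2 : 0 < Real.log 2 := Real.log_pos (by norm_num)
  unfold AP KX
  split_ifs
  · push_cast
    rw [mul_comm]
    apply mul_le_mul_of_nonneg_left _ (by positivity)
    rw [Finset.mul_sum, Real.exp_sum]
    apply Finset.prod_le_prod
    · intro s hs
      have := A1_pos s (Finset.mem_range.1 hs)
      have h0 : (0 : ℝ) < ((A1 s : ℚ) : ℝ) := by exact_mod_cast this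
      positivity
    · intro s hs
      have hs' := Finset.mem_range.1 hs
      have h0 : (0 : ℝ) < ((A1 s : ℚ) : ℝ) := by exact_mod_cast A1_pos s hs'
      have h1 := le_exp_of_log_le h0 (log_A1 s hs')
      calc ((A1 s : ℚ) : ℝ) ^ e1 N i s ≤ (Real.exp (Real.log 2 / 4 * kk1 s)) ^ e1 N i s :=
            pow_le_pow_left₀ h0.le h1 _
        _ = _ := by
            rw [← Real.exp_nat_mul]
            congr 1
            ring
  · push_cast
    have h57 : (57600 : ℝ) ^ (120 * N) ≤ Real.exp (Real.log 2 / 4 * (7591 * N)) := by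
      have h1 : (57600 : ℝ) ^ 120 ≤ Real.exp (Real.log 2 / 4 * 7591) := by
        apply le_exp_of_log_le (by positivity)
        rw [Real.log_pow]
        exact_mod_cast log_57600
      rw [pow_mul]
      calc ((57600 : ℝ) ^ 120) ^ N ≤ (Real.exp (Real.log 2 / 4 * 7591)) ^ N := pow_le_pow_left₀ (by positivity) h1 _
        _ = _ := by
            rw [← Real.exp_nat_mul]
            congr 1
            ring
    have hpr : ∏ s ∈ Finset.range 10, ((A2 s : ℚ) : ℝ) ^ e2 N (i - 120 * N) s ≤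
        Real.exp (∑ s ∈ Finset.range 10, Real.log 2 / 4 * (kk2 s * e2 N (i - 120 * N) s)) := by
      rw [Real.exp_sum]
      apply Finset.prod_le_prod
      · intro s hs
        have h0 : (0 : ℝ) < ((A2 s : ℚ) : ℝ) := by exact_mod_cast A2_pos s (Finset.mem_range.1 hs)
        positivity
      · intro s hs
        have hs' := Finset.mem_range.1 hs
        have h0 : (0 : ℝ) < ((A2 s : ℚ) : ℝ) := by exact_mod_cast A2_pos s hs'
        have h1 := le_exp_of_log_le h0 (log_A2 s hs')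
        calc ((A2 s : ℚ) : ℝ) ^ e2 N (i - 120 * N) s ≤ (Real.exp (Real.log 2 / 4 * kk2 s)) ^ e2 N (i - 120 * N) s :=
              pow_le_pow_left₀ h0.le h1 _
          _ = _ := by
              rw [← Real.exp_nat_mul]
              congr 1
              ring
    have hpr0 : 0 ≤ ∏ s ∈ Finset.range 10, ((A2 s : ℚ) : ℝ) ^ e2 N (i - 120 * N) s := by
      apply Finset.prod_nonneg
      intro s hs
      have h0 : (0 : ℝ) < ((A2 s : ℚ) : ℝ) := by exact_mod_cast A2_pos s (Finset.mem_range.1 hs)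
      positivity
    rw [mul_add, Real.exp_add, Finset.mul_sum]
    calc _ ≤ Real.exp (Real.log 2 / 4 * (7591 * N)) *
          (Real.exp (∑ s ∈ Finset.range 10, Real.log 2 / 4 * (kk2 s * e2 N (i - 120 * N) s)) * 46656 ^ 48) := by
          apply mul_le_mul h57 _ (by positivity) (Real.exp_pos _).le
          exact mul_le_mul_of_nonneg_right hpr (by positivity)
      _ = _ := by ring

lemma AP_le (N i : ℕ) : ((AP N i : ℚ) : ℝ) ≤
    46656 ^ 48 * Real.exp (Real.log 2 / 4 * (EX N i + 5099 * N)) := by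
  refine (AP_le_KX N i).trans ?_
  apply mul_le_mul_of_nonneg_left _ (by positivity)
  apply Real.exp_le_exp.2
  have hl2 : 0 < Real.log 2 := Real.log_pos (by norm_num)
  apply mul_le_mul_of_nonneg_left _ (by linarith)
  exact_mod_cast KX_le N i

/-- the constant -/
def cR : ℝ := (18 * 20 * 326 ^ 10 * 46656 ^ 55 * (46656 ^ 48) ^ 2) * ((G0 * 2 ^ 120 : ℚ) : ℝ) * Real.exp 100

lemma cR_pos : 0 < cR := by
  have h : (0 : ℝ) < ((G0 * 2 ^ 120 : ℚ) : ℝ) := by
    have := G0_pos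
    exact_mod_cast (by positivity : (0 : ℚ) < G0 * 2 ^ 120)
  unfold cR
  positivity

/-- the size of the coefficients -/
lemma rho_real' {n N : ℕ} (hN : 2000 ≤ N) (hn : n = 24 * N + 1) {i j : ℕ} (hi : i < 600 * N)
    (hj : j < 600 * N) (l : ℕ) :
    |((rho n (PN N i * PN N j) l : ℚ) : ℝ)| ≤
      cR * (n : ℝ) ^ 122 * Real.exp (70807 / 10 * Real.log 2 * N + Real.log 2 / 4 * ((EX N i : ℝ) + EX N j) +
        2 * ((i : ℝ) + j) * Real.log N) := by
  have h1 := rho_le' hN hn hi hj l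
  have hG : (0 : ℝ) < ((G0 * 2 ^ 120 : ℚ) : ℝ) := by
    have := G0_pos
    exact_mod_cast (by positivity : (0 : ℚ) < G0 * 2 ^ 120)
  set GG : ℝ := ((G0 * 2 ^ 120 : ℚ) : ℝ) with hGG
  have h2 : |((rho n (PN N i * PN N j) l : ℚ) : ℝ)| ≤
      (18 * n) * (GG ^ n * (20 * n) * ((46656 ^ 55 * (((AP N i : ℚ) : ℝ) * ((AP N j : ℚ) : ℝ))) *
        ((nu n : ℚ) : ℝ) ^ (55 + (i + j))) * (326 * n) ^ 10) := by
    have : ((|rho n (PN N i * PN N j) l| : ℚ) : ℝ) ≤
      (((18 * n) * ((G0 * 2 ^ 120) ^ n * (20 * n) * ((46656 ^ 55 * (AP N i * AP N j)) * nu n ^ (55 + (i + j))) *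
        (326 * n) ^ 10) : ℚ) : ℝ) := by
      exact_mod_cast h1
    rw [hGG]
    push_cast at this ⊢
    exact this
  refine h2.trans ?_
  have hN1 : (2000 : ℝ) ≤ N := by exact_mod_cast hN
  have hN0 : (0 : ℝ) < N := by linarith
  have hnr : (n : ℝ) = 24 * N + 1 := by rw [hn]; push_cast; ring
  have hn0 : (0 : ℝ) < n := by rw [hnr]; linarith
  have hn1 : (1 : ℝ) ≤ n := by rw [hnr]; linarith
  have hl2 : 0 < Real.log 2 := Real.log_pos (by norm_num)
  have hAi0 : (0 : ℝ) ≤ ((AP N i : ℚ) : ℝ) := by exact_mod_cast AP_nonneg N i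
  have hAj0 : (0 : ℝ) ≤ ((AP N j : ℚ) : ℝ) := by exact_mod_cast AP_nonneg N j
  -- powers of the base
  have p1 : GG ^ n ≤ GG * Real.exp (24 * (944 / 5) * Real.log 2 * N) := by
    have h3 : GG ≤ Real.exp (944 / 5 * Real.log 2) := le_exp_of_log_le hG log_G
    rw [hn, pow_succ, mul_comm]
    apply mul_le_mul_of_nonneg_left _ hG.le
    calc GG ^ (24 * N) ≤ (Real.exp (944 / 5 * Real.log 2)) ^ (24 * N) := pow_le_pow_left₀ hG.le h3 _
      _ = _ := by
          rw [← Real.exp_nat_mul]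
          congr 1
          push_cast
          ring
  have hnu : ((nu n : ℚ) : ℝ) = ((N : ℝ) * (1 + 1 / (24 * N))) ^ 2 := by
    unfold nu
    push_cast
    rw [hnr]
    field_simp
  have p2 : ((nu n : ℚ) : ℝ) ^ (i + j) ≤ Real.exp (2 * ((i : ℝ) + j) * Real.log N) * Real.exp 100 := by
    have h3 : (1 + 1 / (24 * (N : ℝ))) ≤ Real.exp (1 / (24 * N)) := by
      have := Real.add_one_le_exp (1 / (24 * (N : ℝ)))
      linarith
    have h4 : (N : ℝ) * (1 + 1 / (24 * N)) ≤ Real.exp (Real.log N + 1 / (24 * N)) := by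
      rw [Real.exp_add, Real.exp_log hN0]
      exact mul_le_mul_of_nonneg_left h3 hN0.le
    rw [hnu, ← pow_mul, ← Real.exp_add]
    calc _ ≤ (Real.exp (Real.log N + 1 / (24 * N))) ^ (2 * (i + j)) := pow_le_pow_left₀ (by positivity) h4 _
      _ = Real.exp ((2 * (i + j) : ℕ) * (Real.log N + 1 / (24 * N))) := by rw [← Real.exp_nat_mul]
      _ ≤ _ := by
          apply Real.exp_le_exp.2
          have h5 : ((2 * (i + j) : ℕ) : ℝ) ≤ 2400 * N := by
            have : 2 * (i + j) ≤ 2400 * N := by omega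
            exact_mod_cast this
          have h6 : ((2 * (i + j) : ℕ) : ℝ) * (1 / (24 * N)) ≤ 100 := by
            calc _ ≤ (2400 * (N : ℝ)) * (1 / (24 * N)) := mul_le_mul_of_nonneg_right h5 (by positivity)
              _ = 100 := by field_simp; norm_num
          push_cast at h6 ⊢
          linarith
  have p3 : ((nu n : ℚ) : ℝ) ^ 55 ≤ (n : ℝ) ^ 110 := by
    have h3 : ((nu n : ℚ) : ℝ) ≤ (n : ℝ) ^ 2 := by
      unfold nu
      push_cast
      have : ((n : ℝ) / 24) ^ 2 = (n : ℝ) ^ 2 / 576 := by ring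
      rw [this]
      have : (0 : ℝ) ≤ (n : ℝ) ^ 2 := by positivity
      linarith
    have h4 : (0 : ℝ) ≤ ((nu n : ℚ) : ℝ) := by exact_mod_cast nu_nonneg n
    calc _ ≤ ((n : ℝ) ^ 2) ^ 55 := pow_le_pow_left₀ h4 h3 55
      _ = _ := by rw [← pow_mul]
  have hnu0 : (0 : ℝ) ≤ ((nu n : ℚ) : ℝ) := by exact_mod_cast nu_nonneg n
  have pi := AP_le N i
  have pj := AP_le N j
  have e1 : (18 * (n : ℝ)) * (GG ^ n * (20 * n) * ((46656 ^ 55 * (((AP N i : ℚ) : ℝ) * ((AP N j : ℚ) : ℝ))) *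
        ((nu n : ℚ) : ℝ) ^ (55 + (i + j))) * (326 * n) ^ 10) =
      (18 * 20 * 326 ^ 10 * 46656 ^ 55) * (n : ℝ) ^ 12 * (((nu n : ℚ) : ℝ) ^ 55) *
        (GG ^ n * (((AP N i : ℚ) : ℝ) * ((AP N j : ℚ) : ℝ)) * ((nu n : ℚ) : ℝ) ^ (i + j)) := by
    rw [pow_add]
    ring
  rw [e1]
  calc _ ≤ (18 * 20 * 326 ^ 10 * 46656 ^ 55) * (n : ℝ) ^ 12 * ((n : ℝ) ^ 110) *
        ((GG * Real.exp (24 * (944 / 5) * Real.log 2 * N)) *
          ((46656 ^ 48 * Real.exp (Real.log 2 / 4 * (EX N i + 5099 * N))) *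
            (46656 ^ 48 * Real.exp (Real.log 2 / 4 * (EX N j + 5099 * N)))) *
          (Real.exp (2 * ((i : ℝ) + j) * Real.log N) * Real.exp 100)) := by
        gcongr
    _ = _ := by
        have e2 : Real.exp (70807 / 10 * Real.log 2 * N + Real.log 2 / 4 * ((EX N i : ℝ) + EX N j) +
          2 * ((i : ℝ) + j) * Real.log N) = Real.exp (24 * (944 / 5) * Real.log 2 * N) *
          Real.exp (Real.log 2 / 4 * (EX N i + 5099 * N)) * Real.exp (Real.log 2 / 4 * (EX N j + 5099 * N)) *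
          Real.exp (2 * ((i : ℝ) + j) * Real.log N) := by
          rw [← Real.exp_add, ← Real.exp_add, ← Real.exp_add]
          congr 1
          ring
        rw [e2]
        unfold cR
        ring

/-- the comparison of the exponents -/
lemma exps {N i j : ℕ} : 70807 / 10 * Real.log 2 * N + Real.log 2 / 4 * ((EX N i : ℝ) + EX N j) +
    2 * ((i : ℝ) + j) * Real.log N - 6027 * N ≤ EE2 N i j := by
  have h2 := Real.log_two_lt_d9
  have h2' := Real.log_two_gt_d9
  have h3 : 84 * Real.log 2 ≤ 53 * Real.log 3 := by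
    have h1 : Real.log ((2 : ℝ) ^ 84) ≤ Real.log ((3 : ℝ) ^ 53) := by
      apply Real.log_le_log (by norm_num)
      norm_num
    rw [Real.log_pow, Real.log_pow] at h1
    push_cast at h1
    exact h1
  have e1 : Real.log 288 = 5 * Real.log 2 + 2 * Real.log 3 := by
    rw [show (288 : ℝ) = 2 ^ 5 * 3 ^ 2 by norm_num, Real.log_mul (by norm_num) (by norm_num), Real.log_pow,
      Real.log_pow]
    push_cast; ring
  have e2 : Real.log 48 = 4 * Real.log 2 + Real.log 3 := by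
    rw [show (48 : ℝ) = 2 ^ 4 * 3 by norm_num, Real.log_mul (by norm_num) (by norm_num), Real.log_pow]
    push_cast; ring
  have hN : (0 : ℝ) ≤ N := by positivity
  have key : (70807 / 10 + 19000) * Real.log 2 - Lam / 2 ≤ 6027 := by
    unfold Lam
    rw [e1, e2]
    norm_num at h2 h2' ⊢
    linarith
  have key2 : ((70807 / 10 + 19000) * Real.log 2 - Lam / 2) * N ≤ 6027 * N := mul_le_mul_of_nonneg_right key hN
  unfold EE2
  linarith

lemma poly_small' (c C : ℝ) (K : ℕ) (hc0 : 0 ≤ c) (hC : 0 < C) : ∀ᶠ N : ℕ in atTop,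
    c * ((24 * N + 1 : ℕ) : ℝ) ^ 122 ≤ C * ((24 * N + 1 : ℕ) : ℝ) ^ K * Real.exp (3 * N) := by
  have h1 : Tendsto (fun N : ℕ => ((N : ℝ)) ^ 122 * Real.exp (-(N : ℝ))) atTop (𝓝 0) :=
    (Real.tendsto_pow_mul_exp_neg_atTop_nhds_zero 122).comp tendsto_natCast_atTop_atTop
  have h2 : Tendsto (fun N : ℕ => (c * 25 ^ 122) * ((N : ℝ) ^ 122 * Real.exp (-(N : ℝ)))) atTop (𝓝 ((c * 25 ^ 122) * 0)) :=
    h1.const_mul _
  rw [mul_zero] at h2
  filter_upwards [h2.eventually (gt_mem_nhds hC), eventually_ge_atTop 1] with N h3 hN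
  have hN1 : (1 : ℝ) ≤ N := by exact_mod_cast hN
  have e0 : ((24 * N + 1 : ℕ) : ℝ) ≤ 25 * N := by push_cast; linarith
  have e1 : ((24 * N + 1 : ℕ) : ℝ) ^ 122 ≤ 25 ^ 122 * (N : ℝ) ^ 122 := by
    rw [← mul_pow]
    exact pow_le_pow_left₀ (by positivity) e0 122
  have e2 : (1 : ℝ) ≤ ((24 * N + 1 : ℕ) : ℝ) ^ K := by
    apply one_le_pow₀
    push_cast
    linarith
  calc c * ((24 * N + 1 : ℕ) : ℝ) ^ 122 ≤ c * (25 ^ 122 * (N : ℝ) ^ 122) := mul_le_mul_of_nonneg_left e1 hc0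
    _ = ((c * 25 ^ 122) * ((N : ℝ) ^ 122 * Real.exp (-(N : ℝ)))) * Real.exp N := by
        have : Real.exp (-(N : ℝ)) * Real.exp N = 1 := by rw [← Real.exp_add]; simp
        calc _ = (c * 25 ^ 122) * (N : ℝ) ^ 122 * 1 := by ring
          _ = _ := by rw [← this]; ring
    _ ≤ C * Real.exp N := mul_le_mul_of_nonneg_right h3.le (Real.exp_pos _).le
    _ ≤ C * ((24 * N + 1 : ℕ) : ℝ) ^ K * Real.exp (3 * N) := by
        have h5 : Real.exp (N : ℝ) ≤ Real.exp (3 * N) := Real.exp_le_exp.2 (by linarith)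
        calc C * Real.exp N ≤ C * (1 * Real.exp (3 * N)) := by
              rw [one_mul]
              exact mul_le_mul_of_nonneg_left h5 hC.le
          _ ≤ C * (((24 * N + 1 : ℕ) : ℝ) ^ K * Real.exp (3 * N)) := by
              apply mul_le_mul_of_nonneg_left _ hC.le
              exact mul_le_mul_of_nonneg_right e2 (Real.exp_pos _).le
          _ = _ := by ring

/-- the entries at rational points close to the zeta values -/
theorem entry_pert' : ∃ (C : ℝ) (K : ℕ), 0 < C ∧ ∀ᶠ N : ℕ in atTop, ∀ n : ℕ, n = 24 * N + 1 → ∀ u : ℕ → ℚ,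
    (∀ l, (l = 3 ∨ l = 5 ∨ l = 7 ∨ l = 9) → |zr (l + 4) - (u l : ℝ)| ≤ Real.exp (-(1005 / 4 * n))) →
    ∀ i < 600 * N, ∀ j < 600 * N, |((NL n u (PN N i * PN N j) : ℚ) : ℝ)| ≤ C * (n : ℝ) ^ K *
      Real.exp ((2 * (Lam * N) + 8 * (i + j) * Real.log N + ((EX N i : ℝ) + EX N j - 76000 * N) * Real.log 2) / 4) := by
  obtain ⟨C, K, hC, hE⟩ := entry
  refine ⟨2 * C, K, by positivity, ?_⟩
  have hcR := cR_pos
  filter_upwards [poly_small' (790 * cR) C K (by positivity) hC, eventually_ge_atTop 2000] with N hpoly hN n hn u hu i hi j hj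
  have hN1 : (2000 : ℝ) ≤ N := by exact_mod_cast hN
  have hnr : (n : ℝ) = 24 * N + 1 := by rw [hn]; push_cast; ring
  have hdeg : (PN N i * PN N j).natDegree ≤ 50 * n - 52 := by
    have h1 := Polynomial.natDegree_mul_le (p := PN N i) (q := PN N j)
    rw [(G4_monic (by omega) i hi).2, (G4_monic (by omega) j hj).2] at h1
    omega
  obtain ⟨F, hF1, hF2⟩ := hasSum_gen (by omega : 2 ≤ n) u (PN N i * PN N j) hdeg
  have h1 := hE N (by omega) n hn i hi j hj F hF1
  set W : ℝ := Real.exp (70807 / 10 * Real.log 2 * N + Real.log 2 / 4 * ((EX N i : ℝ) + EX N j) +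
        2 * ((i : ℝ) + j) * Real.log N) with hW
  set A : ℝ := cR * (n : ℝ) ^ 122 * W with hA
  have hA0 : 0 ≤ A := by rw [hA, hW]; positivity
  set η : ℝ := Real.exp (-(1005 / 4 * (n : ℝ))) with hη
  have h2 : |F - ((NL n u (PN N i * PN N j) : ℚ) : ℝ)| ≤ 790 * A * η := by
    rw [hF2]
    refine (Finset.abs_sum_le_sum_abs _ _).trans ?_
    have h3 : ∀ l ∈ Finset.Icc 1 10, |((Nat.choose (l + 3) 4 : ℕ) : ℝ) * ((rho n (PN N i * PN N j) l : ℚ) : ℝ) *
        (zr (l + 4) - (u l : ℝ))| ≤ (if l = 3 ∨ l = 5 ∨ l = 7 ∨ l = 9 then ((Nat.choose (l + 3) 4 : ℕ) : ℝ) else 0) * (A * η) := by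
      intro l hl
      rw [Finset.mem_Icc] at hl
      split_ifs with h
      · rw [abs_mul, abs_mul, Nat.abs_cast, mul_assoc]
        apply mul_le_mul_of_nonneg_left _ (by positivity)
        exact mul_le_mul (rho_real' hN hn hi hj l) (hu l h) (abs_nonneg _) hA0
      · rw [rho_zero (by omega) _ hdeg l hl.1 hl.2 h]
        simp
    refine (Finset.sum_le_sum h3).trans ?_
    rw [← Finset.sum_mul]
    have h4 : ∑ l ∈ Finset.Icc 1 10, (if l = 3 ∨ l = 5 ∨ l = 7 ∨ l = 9 then ((Nat.choose (l + 3) 4 : ℕ) : ℝ) else 0) = 790 := by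
      have h5 : ∑ l ∈ Finset.Icc 1 10, (if l = 3 ∨ l = 5 ∨ l = 7 ∨ l = 9 then (Nat.choose (l + 3) 4 : ℕ) else 0) = 790 := by
        decide
      have h6 : ((∑ l ∈ Finset.Icc 1 10, (if l = 3 ∨ l = 5 ∨ l = 7 ∨ l = 9 then (Nat.choose (l + 3) 4 : ℕ) else 0) : ℕ) : ℝ) = 790 := by
        rw [h5]; norm_num
      push_cast at h6
      exact h6
    rw [h4]
    linarith
  have h3 : 790 * A * η ≤ C * (n : ℝ) ^ K * Real.exp (EE2 N i j) := by
    have e1 : 790 * A * η = (790 * cR * (n : ℝ) ^ 122) * (W * η) := by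
      rw [hA]
      ring
    rw [e1]
    have h4 : W * η ≤ Real.exp (-(3 * N)) * Real.exp (EE2 N i j) := by
      rw [hW, hη, ← Real.exp_add, ← Real.exp_add, Real.exp_le_exp]
      have := exps (N := N) (i := i) (j := j)
      rw [hnr]
      linarith
    have h5 : 790 * cR * (n : ℝ) ^ 122 ≤ C * (n : ℝ) ^ K * Real.exp (3 * N) := by
      rw [hn]
      exact hpoly
    have hc0 : 0 ≤ 790 * cR * (n : ℝ) ^ 122 := by positivity
    have hW0 : 0 ≤ W * η := by rw [hW, hη]; positivity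
    calc _ ≤ (C * (n : ℝ) ^ K * Real.exp (3 * N)) * (Real.exp (-(3 * N)) * Real.exp (EE2 N i j)) := by
          gcongr
      _ = _ := by
          have : Real.exp (3 * (N : ℝ)) * Real.exp (-(3 * (N : ℝ))) = 1 := by rw [← Real.exp_add]; simp
          calc _ = C * (n : ℝ) ^ K * (Real.exp (3 * (N : ℝ)) * Real.exp (-(3 * (N : ℝ)))) * Real.exp (EE2 N i j) := by ring
            _ = _ := by rw [this, mul_one]
  have h4 : |((NL n u (PN N i * PN N j) : ℚ) : ℝ)| ≤ |F| + |F - ((NL n u (PN N i * PN N j) : ℚ) : ℝ)| := by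
    have := abs_sub_abs_le_abs_sub ((NL n u (PN N i * PN N j) : ℚ) : ℝ) F
    rw [abs_sub_comm] at this
    linarith
  have h5 : Real.exp (EE2 N i j) = Real.exp ((2 * (Lam * N) + 8 * (i + j) * Real.log N + ((EX N i : ℝ) + EX N j - 76000 * N) * Real.log 2) / 4) := rfl
  rw [← h5]
  linarith

end

end Pool.Agent.Q203.ZM
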