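import Pool.Agent.Q203.ZM.Base
import Pool.Agent.TH957.ZM.Rho

/-!
# Sharper exponential bounds for the coefficients of the linear forms in `1, ζ(7), ζ(9), ζ(11), ζ(13)`

Every factor of the basis polynomials gets its own bound.
-/

open Polynomial Pool.Agent.H337R2 Pool.Agent.H343Z Pool.Agent.TH957.ZM

namespace Pool.Agent.Q203.ZM

noncomputable section

set_option autoImplicit false

/-- the unit of size -/
def nu (n : ℕ) : ℚ := ((n : ℚ) / 24) ^ 2

lemma nu_nonneg (n : ℕ) : 0 ≤ nu n := by unfold nu; positivity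

/-- monic polynomials in `x` whose local expansions are bounded by `A ν ^ deg` -/
def SA (n k : ℕ) (Q : ℚ[X]) (A : ℚ) : Prop :=
  Q.Monic ∧ 0 ≤ A ∧ AB (Q.natDegree : ℚ) (A * nu n ^ Q.natDegree) (TS (-(k : ℚ)) (Q.comp (xp n)))

lemma SA.one (n k : ℕ) : SA n k 1 1 := by
  refine ⟨monic_one, zero_le_one, ?_⟩
  rw [natDegree_one, one_comp, map_one, pow_zero, Nat.cast_zero, mul_one]
  exact AB.one

lemma SA.mul {n k : ℕ} {P Q : ℚ[X]} {A B : ℚ} (hP : SA n k P A) (hQ : SA n k Q B) : SA n k (P * Q) (A * B) := by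
  have h0 := nu_nonneg n
  have hA := hP.2.1
  have hB := hQ.2.1
  refine ⟨hP.1.mul hQ.1, mul_nonneg hA hB, ?_⟩
  rw [hP.1.natDegree_mul hQ.1, mul_comp, map_mul, pow_add]
  push_cast
  have e : A * B * (nu n ^ P.natDegree * nu n ^ Q.natDegree) =
    (A * nu n ^ P.natDegree) * (B * nu n ^ Q.natDegree) := by ring
  rw [e]
  exact AB.mul (by positivity) (by positivity) (by positivity) (by positivity) hP.2.2 hQ.2.2

lemma SA.pow {n k : ℕ} {P : ℚ[X]} {A : ℚ} (hP : SA n k P A) (e : ℕ) : SA n k (P ^ e) (A ^ e) := by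
  induction e with
  | zero => rw [pow_zero, pow_zero]; exact SA.one n k
  | succ e ih => rw [pow_succ, pow_succ]; exact ih.mul hP

lemma SA.prod {n k : ℕ} {ι : Type} (s : Finset ι) (f : ι → ℚ[X]) (A : ι → ℚ) (h : ∀ i ∈ s, SA n k (f i) (A i)) :
    SA n k (∏ i ∈ s, f i) (∏ i ∈ s, A i) := by
  classical
  induction s using Finset.induction_on with
  | empty => rw [Finset.prod_empty, Finset.prod_empty]; exact SA.one n k
  | insert a s ha ih =>
    rw [Finset.prod_insert ha, Finset.prod_insert ha]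
    exact (h a (Finset.mem_insert_self _ _)).mul (ih fun i hi => h i (Finset.mem_insert_of_mem hi))

lemma SA.mono {n k : ℕ} {P : ℚ[X]} {A B : ℚ} (hP : SA n k P A) (h : A ≤ B) : SA n k P B := by
  have h0 := nu_nonneg n
  have hA := hP.2.1
  refine ⟨hP.1, hA.trans h, ?_⟩
  exact AB_mono hP.2.2 (by positivity) le_rfl (by positivity) (mul_le_mul_of_nonneg_right h (by positivity))

lemma SA_lin {n k : ℕ} (hn : 1 ≤ n) (hk : k ≤ 18 * n) {α A : ℚ} (hA : 46656 ≤ A)
    (hα1 : α ≤ (A - 46656) * nu n) (hα2 : 0 ≤ α) : SA n k (X - C α) A := by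
  have hn1 : (1 : ℚ) ≤ n := by exact_mod_cast hn
  refine ⟨monic_X_sub_C α, by linarith, ?_⟩
  rw [natDegree_X_sub_C, Nat.cast_one, pow_one]
  have h0 := nu_nonneg n
  have h1 : 46656 * nu n = 81 * (n : ℚ) ^ 2 := by unfold nu; ring
  have h2 : 46656 * nu n ≤ A * nu n := mul_le_mul_of_nonneg_right hA h0
  apply AB_lin hn hk
  · nlinarith
  · linarith
  · nlinarith [sq_nonneg (n : ℚ)]

lemma SA_X {n k : ℕ} (hn : 1 ≤ n) (hk : k ≤ 18 * n) : SA n k X 46656 := by
  have := SA_lin (α := 0) (A := 46656) hn hk le_rfl (by simp) le_rfl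
  rwa [C_0, sub_zero] at this

/-- the bound of an atom -/
def Mab (a b : ℚ) : ℚ := (46657 + a * (a + 432) - b ^ 2) ^ 2 + (b * (2 * a + 432)) ^ 2

lemma SA_qa {n k N : ℕ} (hN : 2000 ≤ N) (hn : n = 24 * N + 1) (hk : k ≤ 18 * n) {a b : ℚ} (ha : 1 / 2 ≤ a)
    (hb : 0 ≤ b) (hb2 : b ≤ 136) (hab : b ^ 2 ≤ a * (a + 432) - 1) : SA n k (qa N a b) (Mab a b) := by
  have hn1 : 1 ≤ n := by omega
  have hnq : (n : ℚ) = 24 * N + 1 := by rw [hn]; push_cast; ring
  have hN1 : (2000 : ℚ) ≤ N := by exact_mod_cast hN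
  have hn0 : (0 : ℚ) < n := by rw [hnq]; linarith
  have hM0 : 0 ≤ Mab a b := by unfold Mab; positivity
  refine ⟨(Pool.Agent.H343Z.G4m.qa_monic N a b).1, hM0, ?_⟩
  rw [(Pool.Agent.H343Z.G4m.qa_monic N a b).2]
  set α : ℚ := ((N : ℚ) * a - 1 / 2) * ((N : ℚ) * a - 1 / 2 + 18 * (24 * (N : ℚ) + 1)) - ((N : ℚ) * b) ^ 2 with hα
  set β : ℚ := ((N : ℚ) * b * (2 * ((N : ℚ) * a - 1 / 2) + 18 * (24 * (N : ℚ) + 1))) with hβ
  have e0 : qa N a b = (X - C α) ^ 2 + C (β ^ 2) := by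
    unfold qa
    rw [hα, hβ]
  have hx : (n : ℚ) / 24 = N + 1 / 24 := by rw [hnq]; ring
  set ν := nu n with hν
  have hνe : ν = (N + 1 / 24 : ℚ) ^ 2 := by rw [hν]; unfold nu; rw [hx]
  have hν0 : 0 ≤ ν := nu_nonneg n
  have hb2' : b ^ 2 ≤ 136 ^ 2 := pow_le_pow_left₀ hb hb2 2
  have hNN : 2000 * (N : ℚ) ≤ N ^ 2 := by
    have : (N : ℚ) ^ 2 = N * N := by ring
    rw [this]
    exact mul_le_mul_of_nonneg_right hN1 (by linarith)
  have hNa : (N : ℚ) * (1 / 2) ≤ N * a := mul_le_mul_of_nonneg_left ha (by linarith)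
  -- upper bound for α
  have hα1 : α ≤ (a * (a + 432) - b ^ 2 + 1) * ν := by
    have h1 : ((N : ℚ) * a - 1 / 2) * ((N : ℚ) * a - 1 / 2 + 18 * (24 * (N : ℚ) + 1)) ≤
        ((N + 1 / 24) * a) * ((N + 1 / 24) * (a + 432)) := by
      apply mul_le_mul
      · linarith
      · linarith
      · linarith
      · positivity
    have h2 : b ^ 2 * ν - ν ≤ ((N : ℚ) * b) ^ 2 := by
      have h3 : b ^ 2 * (2 * (N : ℚ) * (1 / 24) + (1 / 24) ^ 2) ≤ ν := by
        rw [hνe]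
        have h4 : b ^ 2 * (2 * (N : ℚ) * (1 / 24) + (1 / 24) ^ 2) ≤ 136 ^ 2 * (2 * (N : ℚ) * (1 / 24) + (1 / 24) ^ 2) :=
          mul_le_mul_of_nonneg_right hb2' (by positivity)
        refine h4.trans ?_
        have h7 : (N + 1 / 24 : ℚ) ^ 2 = N ^ 2 + N / 12 + 1 / 576 := by ring
        rw [h7]
        linarith
      have h5 : b ^ 2 * ν = ((N : ℚ) * b) ^ 2 + b ^ 2 * (2 * (N : ℚ) * (1 / 24) + (1 / 24) ^ 2) := by
        rw [hνe]; ring
      linarith
    have h6 : ((N + 1 / 24 : ℚ) * a) * ((N + 1 / 24) * (a + 432)) = a * (a + 432) * ν := by rw [hνe]; ring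
    rw [hα]
    linarith
  have hα2 : 0 ≤ α := by
    -- (Na - 1/2)(Na - 1/2 + 18 n) ≥ N² a (a + 432) - N (a + 216) ... ≥ N² b²
    have h1 : ((N : ℚ) * a - 1 / 2) * ((N : ℚ) * a - 1 / 2 + 18 * (24 * (N : ℚ) + 1)) - ((N : ℚ) * b) ^ 2 =
        (N : ℚ) ^ 2 * (a * (a + 432) - b ^ 2) + (N : ℚ) * (17 * a - 216) + (1 / 4 - 9) := by ring
    have h2 : (N : ℚ) ^ 2 * 1 ≤ (N : ℚ) ^ 2 * (a * (a + 432) - b ^ 2) := by
      apply mul_le_mul_of_nonneg_left _ (by positivity)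
      linarith
    have h3 : (N : ℚ) * (-216) ≤ (N : ℚ) * (17 * a - 216) := by
      apply mul_le_mul_of_nonneg_left _ (by positivity)
      linarith
    rw [hα, h1]
    linarith
  have hβ0 : 0 ≤ β := by
    rw [hβ]
    apply mul_nonneg (by positivity)
    linarith
  have hβ1 : β ≤ (b * (2 * a + 432)) * ν := by
    have h1 : (N : ℚ) * b * (2 * ((N : ℚ) * a - 1 / 2) + 18 * (24 * (N : ℚ) + 1)) ≤
        ((N + 1 / 24) * b) * ((N + 1 / 24) * (2 * a + 432)) := by
      apply mul_le_mul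
      · linarith
      · linarith
      · linarith
      · positivity
    have h6 : ((N + 1 / 24 : ℚ) * b) * ((N + 1 / 24) * (2 * a + 432)) = (b * (2 * a + 432)) * ν := by rw [hνe]; ring
    rw [hβ]
    linarith
  rw [e0, add_comp, pow_comp, C_comp, map_add, map_pow, TS_C]
  have h46 : 46656 * ν = 81 * (n : ℚ) ^ 2 := by rw [hν]; unfold nu; ring
  set B : ℚ := (46657 + a * (a + 432) - b ^ 2) * ν with hB
  have hB0 : 0 ≤ B := by
    rw [hB]
    apply mul_nonneg _ hν0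
    linarith
  have h1 : AB 1 B (TS (-(k : ℚ)) ((X - C α).comp (xp n))) := by
    apply AB_lin hn1 hk
    · have h2 : 81 * (n : ℚ) ^ 2 ≤ B := by
        rw [← h46, hB]
        apply mul_le_mul_of_nonneg_right _ hν0
        linarith
      have h9 : (1 : ℚ) ≤ n := by exact_mod_cast hn1
      have h10 : (n : ℚ) * 1 ≤ n * n := mul_le_mul_of_nonneg_left h9 (by linarith)
      have h11 : (n : ℚ) ^ 2 = n * n := by ring
      linarith
    · rw [hB, ← h46]
      have : (46657 + a * (a + 432) - b ^ 2) * ν - 46656 * ν = (a * (a + 432) - b ^ 2 + 1) * ν := by ring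
      rw [this]
      exact hα1
    · linarith
  have h2 := AB.pow zero_le_one hB0 h1 2
  have h3 : AB 0 (β ^ 2) (PowerSeries.C (β ^ 2)) := AB.C (by rw [abs_of_nonneg (sq_nonneg β)])
  have h4 : AB (((2 : ℕ) : ℚ)) (B ^ 2) (TS (-(k : ℚ)) ((X - C α).comp (xp n)) ^ 2) := by
    have := h2
    rwa [mul_one] at this
  have h5 : AB (((2 : ℕ) : ℚ)) (β ^ 2) (PowerSeries.C (β ^ 2)) :=
    AB_mono h3 le_rfl (by norm_num) (sq_nonneg _) le_rfl
  refine AB_mono (AB_add h4 h5) (by norm_num) le_rfl (by positivity) ?_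
  have h6 : β ^ 2 ≤ ((b * (2 * a + 432)) * ν) ^ 2 := pow_le_pow_left₀ hβ0 hβ1 2
  have h7 : B ^ 2 + ((b * (2 * a + 432)) * ν) ^ 2 = Mab a b * ν ^ 2 := by
    rw [hB]; unfold Mab; ring
  linarith

/-- the bound of the stage `s`, part 1 -/
def A1 (s : ℕ) : ℚ := ∏ k ∈ Finset.range 6, Mab (at1 k).1 (at1 k).2 ^ sg1 s k

/-- the bound of the stage `s`, part 2 -/
def A2 (s : ℕ) : ℚ := ∏ k ∈ Finset.range 20, Mab (at2 k).1 (at2 k).2 ^ sg2 s k

lemma SA_C1 {n k N s : ℕ} (hN : 2000 ≤ N) (hn : n = 24 * N + 1) (hk : k ≤ 18 * n) :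
    SA n k (Pool.Agent.H343Z.C1 N s) (A1 s) := by
  unfold Pool.Agent.H343Z.C1 A1
  apply SA.prod
  intro κ hκ
  rw [Finset.mem_range] at hκ
  apply SA.pow
  apply SA_qa hN hn hk
  all_goals interval_cases κ <;> norm_num [at1, la1]

lemma SA_C2 {n k N s : ℕ} (hN : 2000 ≤ N) (hn : n = 24 * N + 1) (hk : k ≤ 18 * n) :
    SA n k (Pool.Agent.H343Z.C2 N s) (A2 s) := by
  unfold Pool.Agent.H343Z.C2 A2
  apply SA.prod
  intro κ hκ
  rw [Finset.mem_range] at hκ
  apply SA.pow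
  apply SA_qa hN hn hk
  all_goals interval_cases κ <;> norm_num [at2, la2]

lemma SA_MU {n k N : ℕ} (hn : n = 24 * N + 1) (hk : k ≤ 18 * n) :
    SA n k (MU N) (57600 ^ (120 * N)) := by
  have h := SA.prod (n := n) (k := k) (Finset.range (24 * N)) (fun u => (X - C (xq (24 * N + 1) u)) ^ 5)
    (fun _ => (57600 : ℚ) ^ 5) (by
      intro u hu
      rw [Finset.mem_range] at hu
      apply SA.pow
      have hu2 : u ≤ n := by omega
      have hu3 : (u : ℚ) ≤ n := by exact_mod_cast hu2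
      have hu0 : (0 : ℚ) ≤ u := by positivity
      have e : xq (24 * N + 1) u = (u : ℚ) * (u + 18 * n) := by
        unfold xq
        rw [hn]
        push_cast
        ring
      rw [e]
      have h0 : (0 : ℚ) ≤ n := by positivity
      apply SA_lin (by omega) hk (by norm_num)
      · have h1 : (u : ℚ) * (u + 18 * n) ≤ n * (n + 18 * n) := by
          apply mul_le_mul hu3 _ (by positivity) h0
          linarith
        have h2 : ((57600 : ℚ) - 46656) * nu n = 19 * n ^ 2 := by unfold nu; ring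
        rw [h2]
        nlinarith [sq_nonneg (n : ℚ)]
      · positivity)
  unfold MU
  have e : ∏ i ∈ Finset.range (24 * N), (57600 : ℚ) ^ 5 = 57600 ^ (120 * N) := by
    rw [Finset.prod_const, Finset.card_range, ← pow_mul]
    congr 1
    ring
  rw [e] at h
  exact h

/-- the bound of the basis polynomials, without the powers of `ν` -/
def AP (N i : ℕ) : ℚ :=
  if i < 120 * N then (∏ s ∈ Finset.range 4, A1 s ^ e1 N i s) * 46656 ^ 48
  else 57600 ^ (120 * N) * ((∏ s ∈ Finset.range 10, A2 s ^ e2 N (i - 120 * N) s) * 46656 ^ 48)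

lemma SA_PN {n k N : ℕ} (hN : 2000 ≤ N) (hn : n = 24 * N + 1) (hk : k ≤ 18 * n) (i : ℕ) :
    SA n k (PN N i) (AP N i) := by
  have hX := SA_X (n := n) (k := k) (by omega) hk
  have hXp : ∀ r, r < 48 → SA n k (X ^ r) (46656 ^ 48) := by
    intro r hr
    exact (hX.pow r).mono (pow_le_pow_right₀ (by norm_num) (by omega))
  unfold PN AP
  split_ifs
  · unfold P1
    exact (SA.prod _ _ _ fun s _ => (SA_C1 hN hn hk).pow _).mul (hXp _ (by omega))
  · unfold P2
    exact (SA_MU hn hk).mul ((SA.prod _ _ _ fun s _ => (SA_C2 hN hn hk).pow _).mul (hXp _ (by omega)))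

lemma AP_nonneg (N i : ℕ) : 0 ≤ AP N i := by
  unfold AP A1 A2 Mab
  split_ifs <;> positivity

/-- the bound of the local expansions of the extra factor -/
lemma AB_EE' {n k N : ℕ} (hN : 2000 ≤ N) (hn : n = 24 * N + 1) (hk : k ≤ 18 * n) {i j : ℕ} (hi : i < 600 * N)
    (hj : j < 600 * N) :
    AB ((55 + (i + j) : ℕ) : ℚ) ((46656 ^ 55 * (AP N i * AP N j)) * nu n ^ (55 + (i + j)))
      (TS (-(k : ℚ)) (EE n (PN N i * PN N j))) := by
  have hX := SA_X (n := n) (k := k) (by omega) hk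
  have h1 := (hX.pow 55).mul ((SA_PN hN hn hk i).mul (SA_PN hN hn hk j))
  have h2 : (X ^ 55 * (PN N i * PN N j) : ℚ[X]).natDegree = 55 + (i + j) := by
    rw [(hX.pow 55).1.natDegree_mul ((SA_PN hN hn hk i).mul (SA_PN hN hn hk j)).1,
      (SA_PN hN hn hk i).1.natDegree_mul (SA_PN hN hn hk j).1, natDegree_X_pow,
      (G4_monic (by omega) i hi).2, (G4_monic (by omega) j hj).2]
  have h3 := h1.2.2
  rw [h2] at h3
  exact h3

theorem rho_le' {n N : ℕ} (hN : 2000 ≤ N) (hn : n = 24 * N + 1) {i j : ℕ} (hi : i < 600 * N)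
    (hj : j < 600 * N) (l : ℕ) :
    |rho n (PN N i * PN N j) l| ≤
      (18 * n) * ((G0 * 2 ^ 120) ^ n * (20 * n) * ((46656 ^ 55 * (AP N i * AP N j)) * nu n ^ (55 + (i + j))) *
        (326 * n) ^ 10) := by
  have hn1 : (1 : ℚ) ≤ n := by exact_mod_cast (by omega : 1 ≤ n)
  have hν := nu_nonneg n
  have hG := G0_pos.le
  have hAi := AP_nonneg N i
  have hAj := AP_nonneg N j
  have key : ∀ k ∈ sN n, |pa (sN n) (muN n) (PPn n * EE n (PN N i * PN N j)) k l| ≤
      (G0 * 2 ^ 120) ^ n * (20 * n) * ((46656 ^ 55 * (AP N i * AP N j)) * nu n ^ (55 + (i + j))) *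
        (326 * n) ^ 10 := by
    intro k hk
    have hk' := hk
    rw [sN, ss, Finset.mem_Icc] at hk'
    have h1 := pa_mul_le' n (by omega) hk (EE n (PN N i * PN N j))
      ((55 + (i + j) : ℕ) : ℚ) _ (by positivity) (by positivity)
      (AB_EE' hN hn (by omega) hi hj) l
    refine h1.trans ?_
    have h2 : ((∑ m ∈ sN n, muN n m : ℕ) : ℚ) ≤ 180 * n + 10 := by
      have h3 : ∑ m ∈ ss 18 2 n, mu 18 n ds10 m ≤ (18 * n) * 10 := by
        calc _ ≤ ∑ m ∈ ss 18 2 n, 10 := Finset.sum_le_sum fun k _ => mu_le_length 18 n ds10 k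
          _ = (ss 18 2 n).card * 10 := by rw [Finset.sum_const, smul_eq_mul]
          _ ≤ (18 * n) * 10 := by
              apply Nat.mul_le_mul_right
              unfold ss
              rw [Nat.card_Icc]
              omega
      have h4 : ((∑ m ∈ ss 18 2 n, mu 18 n ds10 m : ℕ) : ℚ) ≤ ((18 * n * 10 : ℕ) : ℚ) := by exact_mod_cast h3
      push_cast at h4 ⊢
      linarith
    have h3 : ((55 + (i + j) : ℕ) : ℚ) ≤ 55 + 50 * n := by
      have : 55 + (i + j) ≤ 55 + 50 * n := by omega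
      have h4 : ((55 + (i + j) : ℕ) : ℚ) ≤ ((55 + 50 * n : ℕ) : ℚ) := by exact_mod_cast this
      push_cast at h4 ⊢
      exact h4
    have h4 : (1 + 20 * (n : ℚ) + ∑ m ∈ sN n, (muN n m : ℚ) + ((55 + (i + j) : ℕ) : ℚ)) ≤ 326 * n := by
      push_cast at h2 h3 ⊢
      linarith
    rw [← Nat.cast_sum] at h4
    have h5 : ((18 : ℚ) * n + 2) ≤ 20 * n := by linarith
    have h6 : 0 ≤ (1 + 20 * (n : ℚ) + ((∑ m ∈ sN n, muN n m : ℕ) : ℚ) + ((55 + (i + j) : ℕ) : ℚ)) := by positivity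
    gcongr
  unfold rho
  calc _ ≤ ∑ k ∈ sN n, |pa (sN n) (muN n) (PPn n * EE n (PN N i * PN N j)) k l| := Finset.abs_sum_le_sum_abs _ _
    _ ≤ ∑ k ∈ sN n, (G0 * 2 ^ 120) ^ n * (20 * n) * ((46656 ^ 55 * (AP N i * AP N j)) * nu n ^ (55 + (i + j))) *
        (326 * n) ^ 10 := Finset.sum_le_sum key
    _ = ((sN n).card : ℚ) * ((G0 * 2 ^ 120) ^ n * (20 * n) *
        ((46656 ^ 55 * (AP N i * AP N j)) * nu n ^ (55 + (i + j))) * (326 * n) ^ 10) := by
        rw [Finset.sum_const, nsmul_eq_mul]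
    _ ≤ _ := by
        apply mul_le_mul_of_nonneg_right _ (by positivity)
        have h4 : (sN n).card ≤ 18 * n := by
          unfold sN ss
          rw [Nat.card_Icc]
          omega
        have h5 : ((sN n).card : ℚ) ≤ ((18 * n : ℕ) : ℚ) := by exact_mod_cast h4
        push_cast at h5
        exact h5

end

end Pool.Agent.Q203.ZM
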